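import Pool.Agent.helper98.P2.BNDc

/-!
# p2:BND (MP_063734_an)
-/

set_option autoImplicit false

open scoped ContDiff Topology ComplexConjugate ENNReal
open MeasureTheory Filter Set Metric

namespace Pool.Agent.P2B

open Pool.Agent.P2 Pool.Agent.P2I

/-- the arithmetic of the constants -/
theorem BND_num {Cr Ch Cw C0 D β S κ L ε I1 I2 I E : ℝ} (hCr : 0 < Cr) (hCh : 0 < Ch) (hCw : 0 < Cw)
    (hC0 : 1 ≤ C0) (hD : 1 ≤ D) (hβ : 0 ≤ β) (hS : 0 ≤ S) (hL : 1 ≤ L) (hε : 0 < ε) (hE : E = 3 * C0 * D)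
    (h4 : 4 ≤ ε * D)
    (h1 : I1 ≤ Cr * ((Cw * E * κ ^ 2 + 4) + D * (β + Ch * S) + (1 + C0) * E / L)) (h2 : I2 ≤ ε * E)
    (h : I ≤ I1 + I2) :
    I ≤ (Cr + Cr * Ch + 3 * Cr * Cw * C0 + 3 * Cr * (1 + C0) * C0 + Cr + 3 * C0) * D *
      (β + S + κ ^ 2 + 1 / L + ε) := by
  have hL1 : 0 ≤ 1 / L := by positivity
  have e1 : (1 + C0) * E / L = (1 + C0) * (3 * C0 * D) * (1 / L) := by
    rw [hE]
    ring
  have hκ : 0 ≤ κ ^ 2 := sq_nonneg κ
  refine h.trans ((add_le_add h1 h2).trans ?_)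
  rw [e1, hE]
  have hDpos : 0 ≤ D := by linarith
  have hC0pos : 0 ≤ C0 := by linarith
  have h3 : Cr * 4 ≤ Cr * (ε * D) := mul_le_mul_of_nonneg_left h4 hCr.le
  have p1 : 0 ≤ Cr * D * (S + κ ^ 2 + 1 / L + ε) := by positivity
  have p2 : 0 ≤ Cr * Ch * D * (β + κ ^ 2 + 1 / L + ε) := by positivity
  have p3 : 0 ≤ 3 * Cr * Cw * C0 * D * (β + S + 1 / L + ε) := by positivity
  have p4 : 0 ≤ 3 * Cr * (1 + C0) * C0 * D * (β + S + κ ^ 2 + ε) := by positivity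
  have p5 : 0 ≤ Cr * D * (β + S + κ ^ 2 + 1 / L) := by positivity
  have p6 : 0 ≤ 3 * C0 * D * (β + S + κ ^ 2 + 1 / L) := by positivity
  linarith

theorem BND (hUNUL : P2U.UNUL_stmt) (hUSNG : P2U.USNG_stmt) (hCHN : CHN_stmt) (hCH1 : CH1_stmt) (hBSL : BSL_stmt) (hBMP : BMP_stmt) (hBSH : BSH_stmt) (hBOW : BOW_stmt) (hBTR : BTR_stmt) (hBFI : BFI_stmt) : BND_stmt := by
  intro C0 α hC0 hα hα1
  obtain ⟨Ch, hCh, hBSH⟩ := hBSH C0 α hC0 hα hα1
  obtain ⟨Cw, hCw, hBOW⟩ := hBOW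
  obtain ⟨Cr, hCr, hBTR⟩ := hBTR
  refine ⟨Cr + Cr * Ch + 3 * Cr * Cw * C0 + 3 * Cr * (1 + C0) * C0 + Cr + 3 * C0, by positivity, ?_⟩
  intro κ L s σ ε hκ hκ1 hL hs hs1 hσ hε
  have hexp0 : 0 < Real.exp (-L) := Real.exp_pos _
  have hexp1 : Real.exp (-L) ≤ 1 := Real.exp_le_one_iff.2 (by linarith)
  have hκF : 0 < κ / 4 * Real.exp (-L) / 50 := by positivity
  have hκF1 : κ / 4 * Real.exp (-L) / 50 ≤ 1 / 8 := by
    have : κ / 4 * Real.exp (-L) ≤ 1 / 16 * 1 :=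
      mul_le_mul (by linarith) hexp1 hexp0.le (by norm_num)
    linarith
  have hrF : 0 < 1 / 4 * Real.exp (-L) / 8 := by positivity
  have hrF1 : 1 / 4 * Real.exp (-L) / 8 ≤ 1 := by linarith
  obtain ⟨η, hη, hBFI⟩ := hBFI C0 α (κ / 4 * Real.exp (-L) / 50) (1 / 4 * Real.exp (-L) / 8) σ ε hC0 hα hα1
    hκF hκF1 hrF hrF1 hσ hε
  refine ⟨η, max (max L (4 / ε)) 1, hη, lt_of_lt_of_le one_pos (le_max_right _ _), ?_⟩
  intro Ω G F u D τ β b hCD hF hd hDat hτ hsτ hsD hD0 hβ hb hNm hNN hA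
  have hD1 : 1 ≤ D := (le_max_right _ _).trans hD0
  have hDL : L ≤ D := (le_max_left _ _).trans ((le_max_left _ _).trans hD0)
  have hDε : 4 ≤ ε * D := by
    have h1 : 4 / ε ≤ D := (le_max_right _ _).trans ((le_max_left _ _).trans hD0)
    rw [div_le_iff₀ hε] at h1
    linarith
  have hD0' : 0 ≤ D := by linarith
  set c : ℝ := Real.exp (-(D * u (0, 0))) with hc
  have hc0 : 0 < c := Real.exp_pos _
  have hFD := BND_FD hCD hF hd hDat hα hα1 hC0 hD1 hs hsτ hτ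
  rw [← hc] at hFD
  set E : ℝ := 3 * C0 * D with hE
  have hED : D ≤ E := by
    rw [hE]
    nlinarith
  have hE0 : 0 ≤ E := by linarith
  have hnd := hFD.nd
  -- the own level
  have hS0 : 0 ≤ s ^ α := Real.rpow_nonneg hs.le α
  have h2 := hBSH (fun p => F p 0) (fun p => F p 1) u D τ hDat hτ s β hs hs1 hsτ hsD hβ b hb hNm hNN
  have h1 := hBOW (fun p => BND_sc c 2 (s / 6) F p 0) (fun p => BND_sc c 2 (s / 6) F p 1) E κ hnd hκ
    (by linarith)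
  have hγ1 : 0 ≤ Cw * E * κ ^ 2 + 4 := by positivity
  have hγ2 : 0 ≤ D * (β + Ch * s ^ α) := by positivity
  have h3 := BND_meas hUNUL hUSNG hBSL hDat.hol hs hsτ hc0 hnd h1 h2 hγ1 hγ2
  -- the potential on the slice
  set V' : ℂ → ℝ := fun x => G (BND_sc c 2 (s / 6) F (x, 0)) with hV'
  have hτ0 : 0 < τ := by linarith
  have hslice : DifferentiableOn ℂ (fun x : ℂ => BND_sc c 2 (s / 6) F (x, 0)) (ball 0 1) :=
    hFD.df.comp (g := BND_sc c 2 (s / 6) F) (f := fun x : ℂ => (x, (0 : ℂ))) (t := BI)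
      (differentiable_id.prodMk (differentiable_const _)).differentiableOn
      (fun x hx => ⟨hx, mem_ball_self one_pos⟩)
  have hmem' : ∀ x ∈ ball (0 : ℂ) 1, BND_sc c 2 (s / 6) F (x, 0) ∈ Ω := fun x hx =>
    hFD.mem _ ⟨hx, mem_ball_self one_pos⟩
  have hVs : ContDiffOn ℝ ∞ V' (ball 0 1) :=
    hCD.sm.comp (f := fun x : ℂ => BND_sc c 2 (s / 6) F (x, 0)) (OSG isOpen_ball hslice) hmem'
  have hVl : ∀ x ∈ ball (0 : ℂ) 1, 0 ≤ lap V' x := by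
    intro x hx
    have h4 := hCHN.2.1 (ball 0 1) (fun x : ℂ => BND_sc c 2 (s / 6) F (x, 0)) G x isOpen_ball hslice hx
      ((hCD.sm.contDiffAt (hCD.op.mem_nhds (hmem' x hx))).of_le
        (WithTop.coe_le_coe.2 (le_top : (2 : ℕ∞) ≤ ⊤)))
    have h5 : lap V' x = lev G (BND_sc c 2 (s / 6) F (x, 0))
      (deriv (fun x : ℂ => BND_sc c 2 (s / 6) F (x, 0)) x) := h4
    rw [h5]
    exact hCD.ps _ (hmem' x hx) _
  have hVU : ∀ x ∈ ball (0 : ℂ) 1, |V' x - Up (sl (fun p => BND_sc c 2 (s / 6) F p 0) 0)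
      (sl (fun p => BND_sc c 2 (s / 6) F p 1) 0) x| ≤ C0 := fun x hx => hCD.bd _ (hmem' x hx)
  -- transfer
  obtain ⟨B1, hB1m, hB1, hB1i⟩ := hBTR (fun p => BND_sc c 2 (s / 6) F p 0)
    (fun p => BND_sc c 2 (s / 6) F p 1) V' E C0 (κ / 4) (1 / 4) L
    ((Cw * E * κ ^ 2 + 4) + D * (β + Ch * s ^ α)) hnd hVs hVl (by linarith) hVU (by positivity)
    (by linarith) (by norm_num) (by norm_num) hL (hDL.trans hED) (by positivity) h3
  -- thin bands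
  have hA' := BND_area (r := 1 / 4 * Real.exp (-L) / 8) hBMP hCD hF hd hs hsτ hc0 hrF1 hA
  obtain ⟨B2, hB2m, hB2, hB2i⟩ := hBFI Ω G (BND_sc c 2 (s / 6) F) E hCD hFD
    (hA'.trans (ENNReal.ofReal_le_ofReal (mul_le_mul_of_nonneg_left hED hη.le)))
  refine ⟨{x : ℂ | x / 2 ∈ B1 ∪ B2}, ?_, ?_, ?_⟩
  · exact (hB1m.union hB2m).preimage (measurable_id.div_const 2)
  · intro x hx hxB
    have hx2 : x / 2 ∈ ball (0 : ℂ) (1 / 6) := by
      rw [mem_ball_zero_iff] at hx ⊢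
      rw [norm_div, Complex.norm_ofNat]
      linarith
    have hx3 : x / 2 ∉ B1 := fun h => hxB (Or.inl h)
    have hx4 : x / 2 ∉ B2 := fun h => hxB (Or.inr h)
    obtain ⟨Y', hY', hz⟩ := hB2 (x / 2) hx2 hx4 (hB1 (x / 2) hx2 hx3)
    have e1 : κ / 4 * Real.exp (-L) / 50 / 16 = κ * Real.exp (-L) / 3200 := by ring
    rw [e1] at hY' hz
    have e2 : 6 / s * (s * Real.exp (-L) / 3200) ≤ 1 / 4 * Real.exp (-L) / 8 / 16 := by
      have e3 : 6 / s * (s * Real.exp (-L) / 3200) = 6 * Real.exp (-L) / 3200 := by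
        field_simp
      rw [e3]
      linarith
    exact BND_ret hs hc0 e2 hY' hz
  · have hVsm : ContDiffOn ℝ ∞ (fun x : ℂ => G (F (x, 0))) (ball 0 2) := by
      have hm : ∀ x ∈ ball (0 : ℂ) 2, (x, (0 : ℂ)) ∈ P2U.TB 4 τ := by
        intro x hx
        rw [mem_ball_zero_iff] at hx
        refine ⟨hx.trans (by norm_num), ?_⟩
        show ‖(0 : ℂ)‖ < τ
        rw [norm_zero]
        exact hτ0
      have h5 : DifferentiableOn ℂ (fun x : ℂ => F (x, 0)) (ball 0 2) :=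
        hd.comp (g := F) (f := fun x : ℂ => (x, (0 : ℂ))) (t := P2U.TB 4 τ)
          (differentiable_id.prodMk (differentiable_const _)).differentiableOn hm
      exact hCD.sm.comp (f := fun x : ℂ => F (x, 0)) (OSG isOpen_ball h5) (fun x hx => hF _ (hm x hx))
    have hrel : ∀ x ∈ ball (0 : ℂ) 1, V' x = (fun x : ℂ => G (F (x, 0))) (((2 : ℝ) : ℂ) * x) + Real.log c := by
      intro x hx
      have hm := (BND_mem hs hsτ (p := (x, 0)) ⟨hx, mem_ball_self one_pos⟩).1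
      have h5 := hCD.hg _ (hF _ hm) (c : ℂ) (by exact_mod_cast hc0.ne')
      rw [Complex.norm_real, Real.norm_of_nonneg hc0.le] at h5
      have h6 : G (BND_sc c 2 (s / 6) F (x, 0)) = G (F (((2 : ℝ) : ℂ) * x, ((s / 6 : ℝ) : ℂ) * 0)) + Real.log c := h5
      rw [mul_zero] at h6
      exact h6
    have h7 := BND_mass hCH1 hVsm hrel hVl hVs B1 B2 hB1m hB2m
    exact BND_num hCr hCh hCw hC0 hD1 hβ hS0 hL hε hE hDε hB1i hB2i h7

end Pool.Agent.P2B
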