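import Pool.Agent.helper56.P2.SpecU

/-!
# p2:UUNF (MP_063734_an): choice of the shear, the sheets are mostly unfolded
-/

set_option autoImplicit false

namespace Pool.Agent.P2U

open MeasureTheory Set Filter Topology Metric Complex
open scoped ENNReal ContDiff

lemma UUNF_log {s t : ℝ} (hs : 0 < s) (hst : s ≤ t ^ 2) (ht : 0 < t) (ht4 : t ≤ 1 / 4) :
    0 < Real.log (1 / s) ∧ Real.log (1 / s) / 2 ≤ Real.log (t / s) := by
  have hs1 : s < 1 := by nlinarith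
  have h1 : 0 < Real.log (1 / s) := by
    apply Real.log_pos
    rw [lt_div_iff₀ hs]
    linarith
  refine ⟨h1, ?_⟩
  rw [Real.log_div ht.ne' hs.ne', one_div, Real.log_inv]
  have h2 : Real.log s ≤ 2 * Real.log t := by
    have := Real.log_le_log hs hst
    rw [Real.log_pow] at this
    exact_mod_cast this
  linarith

lemma UUNF_real {C1 C2 C3 C4 D s t α E0 P0 : ℝ} (hC1 : 0 < C1) (hC2 : 0 < C2) (hC3 : 0 < C3)
    (hC4 : 0 < C4) (hα : 0 < α) (hα1 : α ≤ 1) (hs : 0 < s) (hst : s ≤ t ^ 2) (ht : 0 < t)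
    (ht4 : t ≤ 1 / 4) (hD : 1 / s ≤ D) (hE0 : 0 ≤ E0) (hP0 : 0 ≤ P0) :
    2 * (4 * (s ^ 2) ^ 2 * (8 * (D * (E0 + P0 / Real.log (t / s) + C1 * t ^ (α / 2))))) +
      C4 * (C3 * (s ^ 2) ^ (2 - α / 4) * (C2 * (D * (s / 2) ^ α + 1))) ≤
    (128 + 128 * C1 + 2 * C2 * C3 * C4) * D * (E0 + P0 / Real.log (1 / s) + t ^ (α / 2)) *
      (s ^ 2) ^ 2 := by
  obtain ⟨hL, hL2⟩ := UUNF_log hs hst ht ht4
  have hs1 : s < 1 := by nlinarith
  have hst' : s ≤ t := by nlinarith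
  have hDpos : 0 < D := lt_of_lt_of_le (by positivity) hD
  have hDs : 1 ≤ D * s := by
    rw [div_le_iff₀ hs] at hD
    exact hD
  have hsα : s ≤ s ^ α := by
    calc s = s ^ (1 : ℝ) := (Real.rpow_one s).symm
      _ ≤ s ^ α := Real.rpow_le_rpow_of_exponent_ge hs hs1.le hα1
  have h1 : D * (s / 2) ^ α + 1 ≤ 2 * D * s ^ α := by
    have h2 : (s / 2) ^ α ≤ s ^ α := Real.rpow_le_rpow (by positivity) (by linarith) hα.le
    have h3 : D * (s / 2) ^ α ≤ D * s ^ α := mul_le_mul_of_nonneg_left h2 hDpos.le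
    have h4 : 1 ≤ D * s ^ α := hDs.trans (mul_le_mul_of_nonneg_left hsα hDpos.le)
    linarith
  have h2 : (s ^ 2) ^ (2 - α / 4) * s ^ α ≤ (s ^ 2) ^ 2 * t ^ (α / 2) := by
    have h3 : (s ^ 2) ^ (2 - α / 4) * s ^ α = (s ^ 2) ^ 2 * s ^ (α / 2) := by
      have e1 : (s ^ 2) ^ (2 - α / 4) = s ^ (2 * (2 - α / 4)) := by
        rw [← Real.rpow_natCast s 2, ← Real.rpow_mul hs.le]
        norm_num
      have e2 : (s ^ 2) ^ 2 = s ^ (4 : ℝ) := by
        rw [← pow_mul, ← Real.rpow_natCast s (2 * 2)]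
        norm_num
      rw [e1, e2, ← Real.rpow_add hs, ← Real.rpow_add hs]
      congr 1
      ring
    rw [h3]
    exact mul_le_mul_of_nonneg_left (Real.rpow_le_rpow hs.le hst' (by positivity)) (by positivity)
  have h3 : P0 / Real.log (t / s) ≤ 2 * (P0 / Real.log (1 / s)) := by
    have h4 : P0 / Real.log (t / s) ≤ P0 / (Real.log (1 / s) / 2) :=
      div_le_div_of_nonneg_left hP0 (by positivity) hL2
    calc P0 / Real.log (t / s) ≤ P0 / (Real.log (1 / s) / 2) := h4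
      _ = 2 * (P0 / Real.log (1 / s)) := by field_simp
  have hP : 0 ≤ P0 / Real.log (1 / s) := by positivity
  have hT : 0 ≤ t ^ (α / 2) := by positivity
  have hS : 0 < (s ^ 2) ^ 2 := by positivity
  have hA : 2 * (4 * (s ^ 2) ^ 2 * (8 * (D * (E0 + P0 / Real.log (t / s) + C1 * t ^ (α / 2))))) ≤
      (s ^ 2) ^ 2 * D * (64 * (E0 + 2 * (P0 / Real.log (1 / s)) + C1 * t ^ (α / 2))) := by
    have : 2 * (4 * (s ^ 2) ^ 2 * (8 * (D * (E0 + P0 / Real.log (t / s) + C1 * t ^ (α / 2))))) =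
        (s ^ 2) ^ 2 * D * (64 * (E0 + P0 / Real.log (t / s) + C1 * t ^ (α / 2))) := by ring
    rw [this]
    apply mul_le_mul_of_nonneg_left _ (by positivity)
    linarith
  have hB : C4 * (C3 * (s ^ 2) ^ (2 - α / 4) * (C2 * (D * (s / 2) ^ α + 1))) ≤
      (s ^ 2) ^ 2 * D * (2 * C2 * C3 * C4 * t ^ (α / 2)) := by
    calc C4 * (C3 * (s ^ 2) ^ (2 - α / 4) * (C2 * (D * (s / 2) ^ α + 1)))
        ≤ C4 * (C3 * (s ^ 2) ^ (2 - α / 4) * (C2 * (2 * D * s ^ α))) := by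
          have : 0 ≤ (s ^ 2) ^ (2 - α / 4) := by positivity
          gcongr
      _ = (2 * C2 * C3 * C4 * D) * ((s ^ 2) ^ (2 - α / 4) * s ^ α) := by ring
      _ ≤ (2 * C2 * C3 * C4 * D) * ((s ^ 2) ^ 2 * t ^ (α / 2)) :=
          mul_le_mul_of_nonneg_left h2 (by positivity)
      _ = (s ^ 2) ^ 2 * D * (2 * C2 * C3 * C4 * t ^ (α / 2)) := by ring
  have hC : (s ^ 2) ^ 2 * D * (64 * (E0 + 2 * (P0 / Real.log (1 / s)) + C1 * t ^ (α / 2))) +
      (s ^ 2) ^ 2 * D * (2 * C2 * C3 * C4 * t ^ (α / 2)) ≤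
      (128 + 128 * C1 + 2 * C2 * C3 * C4) * D * (E0 + P0 / Real.log (1 / s) + t ^ (α / 2)) *
      (s ^ 2) ^ 2 := by
    have e : (128 + 128 * C1 + 2 * C2 * C3 * C4) * D * (E0 + P0 / Real.log (1 / s) + t ^ (α / 2)) *
      (s ^ 2) ^ 2 = (s ^ 2) ^ 2 * D * ((128 + 128 * C1 + 2 * C2 * C3 * C4) *
        (E0 + P0 / Real.log (1 / s) + t ^ (α / 2))) := by ring
    rw [e, ← mul_add]
    apply mul_le_mul_of_nonneg_left _ (by positivity)
    have k1 : 0 ≤ C1 * E0 := by positivity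
    have k2 : 0 ≤ C1 * (P0 / Real.log (1 / s)) := by positivity
    have k3 : 0 ≤ C2 * C3 * C4 * E0 := by positivity
    have k4 : 0 ≤ C2 * C3 * C4 * (P0 / Real.log (1 / s)) := by positivity
    have k5 : 0 ≤ C1 * t ^ (α / 2) := by positivity
    nlinarith
  linarith

lemma UUNF_cnt {S T : Set (ℂ × ℂ)} (f : ℂ × ℂ → ℂ × ℂ) (hm : MapsTo f S T) (hi : InjOn f S) :
    cnt S ≤ cnt T := by
  unfold cnt
  have h : S.encard ≤ T.encard := Set.encard_le_encard_of_injOn hm hi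
  exact_mod_cast h

lemma UUNF_avg {f : ℂ → ℝ≥0∞} {σ K : ℝ} (hσ : 0 < σ)
    (hf : AEMeasurable f (volume.restrict (ball 0 σ)))
    (hI : ∫⁻ b in ball (0 : ℂ) σ, f b ≤ ENNReal.ofReal (K * σ ^ 2)) {G : ℂ → Prop}
    (hG : ∀ᵐ b : ℂ, G b) : ∃ b ∈ ball (0 : ℂ) σ, G b ∧ f b ≤ ENNReal.ofReal K := by
  have hvol : volume (ball (0 : ℂ) σ) = ENNReal.ofReal σ ^ 2 * NNReal.pi := Complex.volume_ball 0 σ
  have hpos : 0 < volume (ball (0 : ℂ) σ) := measure_ball_pos volume 0 hσ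
  have hfin : volume (ball (0 : ℂ) σ) < (⊤ : ℝ≥0∞) := measure_ball_lt_top
  haveI : IsFiniteMeasure (volume.restrict (ball (0 : ℂ) σ)) :=
    ⟨by rw [Measure.restrict_apply_univ]; exact hfin⟩
  have hne : volume.restrict (ball (0 : ℂ) σ) ≠ 0 := by
    intro h
    have : volume.restrict (ball (0 : ℂ) σ) univ = 0 := by rw [h]; simp
    rw [Measure.restrict_apply_univ] at this
    exact hpos.ne' this
  have hN : volume.restrict (ball (0 : ℂ) σ) ({b | ¬ G b} ∪ (ball (0 : ℂ) σ)ᶜ) = 0 := by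
    apply measure_union_null
    · exact Measure.absolutelyContinuous_of_le Measure.restrict_le_self (ae_iff.mp hG)
    · rw [Measure.restrict_apply measurableSet_ball.compl]
      simp
  obtain ⟨b, hb, hfb⟩ := exists_notMem_null_le_laverage hne hf hN
  simp only [mem_union, not_or, mem_compl_iff, not_not, mem_setOf_eq] at hb
  refine ⟨b, hb.2, hb.1, hfb.trans ?_⟩
  rw [setLAverage_eq]
  apply ENNReal.div_le_of_le_mul
  refine hI.trans ?_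
  rw [hvol]
  have hpi : (1 : ℝ≥0∞) ≤ NNReal.pi := by
    have h1 : (1 : NNReal) ≤ NNReal.pi := by
      rw [← NNReal.coe_le_coe]
      have := Real.pi_gt_three
      simp only [NNReal.coe_one, NNReal.coe_real_pi]
      linarith
    exact_mod_cast h1
  rcases le_or_gt K 0 with hK | hK
  · rw [ENNReal.ofReal_of_nonpos (by nlinarith [sq_nonneg σ])]
    exact zero_le
  · rw [ENNReal.ofReal_mul hK.le, ENNReal.ofReal_pow hσ.le]
    calc ENNReal.ofReal K * ENNReal.ofReal σ ^ 2 = ENNReal.ofReal K * (ENNReal.ofReal σ ^ 2 * 1) := by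
          rw [mul_one]
      _ ≤ ENNReal.ofReal K * (ENNReal.ofReal σ ^ 2 * NNReal.pi) := by gcongr

lemma UUNF_pt (hFAV : UFAV_stmt) (hSHR : USHR_stmt) {p C4 : ℝ}
    (hUNB : ∀ (P Q : ℂ × ℂ → ℂ) (r r0 : ℝ), Hol P Q 2 r → 0 < r0 → r0 < r → r0 ≤ 1 →
      (∀ᵐ ζ : ℂ, Rg P Q r0 ζ) → ∀ H : ℂ → ℝ≥0∞, Measurable H →
      (∀ᵐ ζ : ℂ, cnt {q : ℂ × ℂ | q ∈ TB 1 r0 ∧ P q = ζ * Q q ∧ cx P Q q = 0} ≤ H ζ) →
      ∫⁻ x in NN P Q r0, ENNReal.ofReal (‖cx P Q (x, 0)‖ ^ 2 * om P Q (x, 0)) ≤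
        2 * (∫⁻ ζ, gz ζ * H ζ) + ENNReal.ofReal C4 *
          ∫⁻ q in TB 1 r0, ENNReal.ofReal ((‖cv P Q q‖ / ‖cx P Q q‖) ^ p * ‖cx P Q q‖ ^ 2 * om P Q q))
    {P Q : ℂ × ℂ → ℂ} {τ s : ℝ} (hol : Hol P Q 4 τ) (hs : 0 < s) (hs16 : s ≤ 1 / 16)
    (hsτ : s ≤ τ) {b : ℂ} (hb : ‖b‖ < s ^ 2)
    (hreg : ∀ᵐ ζ : ℂ, ∀ p ∈ TB 4 τ, P p = ζ * Q p →
      (cx P Q p ≠ 0 ∨ cv P Q p ≠ 0) ∧ (cx P Q p + b * cv P Q p = 0 → nn P Q p ≠ 0)) :
    ∫⁻ x in NN (sh b P) (sh b Q) (s / 4),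
        ENNReal.ofReal (‖cx (sh b P) (sh b Q) (x, 0)‖ ^ 2 * om (sh b P) (sh b Q) (x, 0)) ≤
      2 * (∫⁻ ζ, gz ζ * cnt {p : ℂ × ℂ | p ∈ TB 1 (s / 2) ∧ P p = ζ * Q p ∧
        cx P Q p + b * cv P Q p = 0 ∧ nn P Q p ≠ 0}) + ENNReal.ofReal C4 *
      ∫⁻ q in TB 1 (s / 4), ENNReal.ofReal ((‖cv (sh b P) (sh b Q) q‖ /
        ‖cx (sh b P) (sh b Q) q‖) ^ p * ‖cx (sh b P) (sh b Q) q‖ ^ 2 * om (sh b P) (sh b Q) q) := by
  have hsb : s / 2 + 2 * ‖b‖ ≤ τ := by nlinarith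
  obtain ⟨hol2, hsh⟩ := hSHR P Q τ hol b (s / 2) hsb
  have hmem : ∀ q ∈ TB 1 (s / 4), q ∈ TB 2 (s / 2) := by
    intro q hq
    exact ⟨hq.1.trans (by norm_num), hq.2.trans (by linarith)⟩
  have hmem2 : ∀ q ∈ TB 1 (s / 4), (q.1, q.2 + b * q.1) ∈ TB 1 (s / 2) := by
    intro q hq
    refine ⟨hq.1, ?_⟩
    have h1 : ‖b * q.1‖ ≤ s ^ 2 := by
      rw [norm_mul]
      nlinarith [norm_nonneg b, norm_nonneg q.1, hq.1]
    have h2 : ‖q.2 + b * q.1‖ ≤ ‖q.2‖ + ‖b * q.1‖ := norm_add_le _ _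
    have h3 : ‖q.2‖ < s / 4 := hq.2
    show ‖q.2 + b * q.1‖ < s / 2
    nlinarith
  apply hUNB (sh b P) (sh b Q) (s / 2) (s / 4) hol2 (by linarith) (by linarith) (by linarith)
  · filter_upwards [hreg] with ζ hζ q hq hPQ
    obtain ⟨h1, h2, h3, h4, h5⟩ := hsh q (hmem q hq)
    obtain ⟨h6, h7⟩ := hζ _ h1 hPQ
    refine ⟨?_, ?_⟩
    · rw [h2, h3]
      by_contra hcon
      push Not at hcon
      obtain ⟨k1, k2⟩ := hcon
      rw [k2, mul_zero, add_zero] at k1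
      rcases h6 with h6 | h6
      · exact h6 k1
      · exact h6 k2
    · rw [h2, h5]
      exact h7
  · exact (hFAV P Q τ hol (s / 2) 1 (by linarith) (by linarith) one_pos).1 b
  · filter_upwards [hreg] with ζ hζ
    apply UUNF_cnt (fun q => (q.1, q.2 + b * q.1))
    · rintro q ⟨hq, hPQ, hc⟩
      obtain ⟨h1, h2, h3, h4, h5⟩ := hsh q (hmem q hq)
      rw [h2] at hc
      exact ⟨hmem2 q hq, hPQ, hc, (hζ _ h1 hPQ).2 hc⟩
    · rintro ⟨x, v⟩ _ ⟨x', v'⟩ _ h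
      simp only [Prod.mk.injEq] at h ⊢
      obtain ⟨h1, h2⟩ := h
      subst h1
      exact ⟨rfl, by simpa using h2⟩

theorem UUNF (hUNB : UUNB_stmt) (hFAV : UFAV_stmt) (hREG : UREG_stmt) (hSHR : USHR_stmt) (hBAV : UBAV_stmt) (hR1 : UR1_stmt) (hHV : UHV_stmt) (hMEA : UMEA_stmt) : UUNF_stmt := by
  intro C0 α hC0 hα hα1
  obtain ⟨C1, hC1, hR1⟩ := hR1 C0 α hC0 hα hα1
  obtain ⟨C2, hC2, hHV⟩ := hHV C0 α hC0 hα hα1
  obtain ⟨C3, hC3, hBAV⟩ := hBAV (α / 4) (by positivity) (by linarith)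
  obtain ⟨C4, hC4, hUNB⟩ := hUNB (2 + α / 4) (by linarith)
  refine ⟨128 + 128 * C1 + 2 * C2 * C3 * C4, by positivity, ?_⟩
  intro P Q u D τ hdat hτ s t hs hst ht htτ hD E0 P0 hE0 hP0 hE hP
  have hol := hdat.hol
  have ht4 : t ≤ 1 / 4 := by linarith
  have hs16 : s ≤ 1 / 16 := by nlinarith
  have hsτ : s ≤ τ := by nlinarith
  have hD1 : 1 ≤ D := by
    refine le_trans ?_ hD
    rw [le_div_iff₀ hs]
    linarith
  by_cases hcase : ∃ p ∈ TB 4 τ, cx P Q p ≠ 0 ∨ cv P Q p ≠ 0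
  · have hreg := hREG P Q τ hol hcase
    obtain ⟨-, hMm, hMI⟩ := hFAV P Q τ hol (s / 2) (s ^ 2) (by linarith) (by linarith)
      (by positivity)
    obtain ⟨hNm, hNI⟩ := hBAV P Q τ hol (s / 4) (s ^ 2) (by linarith) (by positivity)
      (by nlinarith)
    have hF := hR1 P Q u D τ hdat hτ s t hs hst ht htτ hD E0 P0 hE0 hP0 hE hP
    have hV := hHV P Q u D τ hdat hD1 (s / 2) (by linarith) (by linarith)
    set M : ℂ → ℝ≥0∞ := fun b => ∫⁻ ζ, gz ζ * cnt {p : ℂ × ℂ | p ∈ TB 1 (s / 2) ∧ P p = ζ * Q p ∧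
        cx P Q p + b * cv P Q p = 0 ∧ nn P Q p ≠ 0} with hMdef
    set N : ℂ → ℝ≥0∞ := fun b => ∫⁻ q in TB 1 (s / 4), ENNReal.ofReal ((‖cv (sh b P) (sh b Q) q‖ /
        ‖cx (sh b P) (sh b Q) q‖) ^ (2 + α / 4) * ‖cx (sh b P) (sh b Q) q‖ ^ 2 *
        om (sh b P) (sh b Q) q) with hNdef
    have hfm : AEMeasurable (fun b => 2 * M b + ENNReal.ofReal C4 * N b)
        (volume.restrict (ball 0 (s ^ 2))) :=
      (hMm.aemeasurable.const_mul 2).add (hNm.const_mul _)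
    have hMI' : ∫⁻ b in ball (0 : ℂ) (s ^ 2), M b ≤ ENNReal.ofReal (4 * (s ^ 2) ^ 2) *
        ENNReal.ofReal (8 * (D * (E0 + P0 / Real.log (t / s) + C1 * t ^ (α / 2)))) := by
      refine hMI.trans (mul_le_mul_right ?_ _)
      refine le_trans (lintegral_mono_set ?_) hF
      intro p hp
      exact ⟨hp.1, hp.2.trans (by linarith)⟩
    have hNI' : ∫⁻ b in ball (0 : ℂ) (s ^ 2), N b ≤ ENNReal.ofReal (C3 * (s ^ 2) ^ (2 - α / 4)) *
        ENNReal.ofReal (C2 * (D * (s / 2) ^ α + 1)) := by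
      refine hNI.trans (mul_le_mul_right ?_ _)
      refine le_trans (lintegral_mono_set ?_) hV
      intro p hp
      exact ⟨hp.1.trans (by norm_num), hp.2.trans_le (by nlinarith)⟩
    obtain ⟨hL, hL2⟩ := UUNF_log hs hst ht ht4
    have hL3 : 0 < Real.log (t / s) := by linarith
    have hnum := UUNF_real hC1 hC2 hC3 hC4 hα hα1 hs hst ht ht4 hD hE0 hP0
    have hint : ∫⁻ b in ball (0 : ℂ) (s ^ 2), (2 * M b + ENNReal.ofReal C4 * N b) ≤
        ENNReal.ofReal ((128 + 128 * C1 + 2 * C2 * C3 * C4) * D *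
          (E0 + P0 / Real.log (1 / s) + t ^ (α / 2)) * (s ^ 2) ^ 2) := by
      rw [lintegral_add_left (hMm.const_mul 2), lintegral_const_mul _ hMm,
        lintegral_const_mul'' _ hNm]
      calc 2 * (∫⁻ b in ball (0 : ℂ) (s ^ 2), M b) + ENNReal.ofReal C4 *
            ∫⁻ b in ball (0 : ℂ) (s ^ 2), N b
          ≤ 2 * (ENNReal.ofReal (4 * (s ^ 2) ^ 2) *
            ENNReal.ofReal (8 * (D * (E0 + P0 / Real.log (t / s) + C1 * t ^ (α / 2))))) +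
            ENNReal.ofReal C4 * (ENNReal.ofReal (C3 * (s ^ 2) ^ (2 - α / 4)) *
            ENNReal.ofReal (C2 * (D * (s / 2) ^ α + 1))) := by gcongr
        _ = ENNReal.ofReal (2 * (4 * (s ^ 2) ^ 2 * (8 * (D * (E0 + P0 / Real.log (t / s) +
            C1 * t ^ (α / 2))))) + C4 * (C3 * (s ^ 2) ^ (2 - α / 4) *
            (C2 * (D * (s / 2) ^ α + 1)))) := by
          rw [← ENNReal.ofReal_mul (by positivity), ← ENNReal.ofReal_mul (by positivity),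
            ← ENNReal.ofReal_mul (by positivity), ENNReal.ofReal_add (by positivity) (by positivity),
            ENNReal.ofReal_mul (p := 2) (by positivity)]
          norm_num
        _ ≤ _ := ENNReal.ofReal_le_ofReal hnum
    obtain ⟨b, hb, hG, hfb⟩ := UUNF_avg (by positivity) hfm hint hreg
    rw [mem_ball_zero_iff] at hb
    refine ⟨b, hb, ?_, ?_⟩
    · have hsb : s / 2 + 2 * ‖b‖ ≤ τ := by nlinarith
      exact hMEA _ _ (s / 2) (s / 4) (hSHR P Q τ hol b (s / 2) hsb).1 (by linarith) (by linarith)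
    · exact (UUNF_pt hFAV hSHR hUNB hol hs hs16 hsτ hb hG).trans hfb
  · push Not at hcase
    have hsb : s / 2 + 2 * ‖(0 : ℂ)‖ ≤ τ := by
      rw [norm_zero]
      linarith
    obtain ⟨hol2, hsh⟩ := hSHR P Q τ hol 0 (s / 2) hsb
    have hNN : NN (sh 0 P) (sh 0 Q) (s / 4) = ∅ := by
      apply eq_empty_of_forall_notMem
      rintro x ⟨hx, hc, -⟩
      apply hc
      have hx2 : ((x, 0) : ℂ × ℂ) ∈ TB 2 (s / 2) := by
        refine ⟨?_, ?_⟩
        · show ‖x‖ < 2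
          linarith
        · show ‖(0 : ℂ)‖ < s / 2
          rw [norm_zero]
          linarith
      obtain ⟨h1, h2, -⟩ := hsh (x, 0) hx2
      rw [h2, (hcase _ h1).1]
      simp
    refine ⟨0, by rw [norm_zero]; positivity, ?_, ?_⟩
    · rw [hNN]
      exact MeasurableSet.empty
    · rw [hNN]
      simp

end Pool.Agent.P2U
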