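import Pool.Agent.helper15.P2.SpecD
import Pool.Agent.helper49.P2.OSG

/-!
# p2:BND (MP_063734_an), tools
-/

set_option autoImplicit false

open scoped ContDiff Topology ComplexConjugate ENNReal
open MeasureTheory Filter Set Metric

namespace Pool.Agent.P2B

open Pool.Agent.P2 Pool.Agent.P2I

/-- preimages of null sets -/
theorem BND_pre (f : ℂ → ℂ) (S N : Set ℂ) (hS : ∀ x ∈ S, AnalyticAt ℂ f x ∧ deriv f x ≠ 0)
    (hN : volume N = 0) : volume {x | x ∈ S ∧ f x ∈ N} = 0 := by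
  refine measure_null_of_locally_null _ ?_
  rintro x ⟨hx, hfx⟩
  obtain ⟨hA, hd⟩ := hS x hx
  have hst := hA.hasStrictDerivAt.hasStrictFDerivAt_equiv hd
  set e := hst.toOpenPartialHomeomorph f with he
  have hcoe : (e : ℂ → ℂ) = f := hst.toOpenPartialHomeomorph_coe
  have hxs : x ∈ e.source := hst.mem_toOpenPartialHomeomorph_source
  set T : Set ℂ := N ∩ {a | a ∈ e.target ∧ AnalyticAt ℂ f (e.symm a) ∧ deriv f (e.symm a) ≠ 0} with hT
  have hdiff : DifferentiableOn ℝ e.symm T := by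
    rintro a ⟨-, ha, ha1, ha2⟩
    have h1 : HasDerivAt e (deriv f (e.symm a)) (e.symm a) := by
      rw [hcoe]
      exact ha1.differentiableAt.hasDerivAt
    have h2 := e.hasDerivAt_symm ha ha2 h1
    exact (h2.hasFDerivAt.restrictScalars ℝ).differentiableAt.differentiableWithinAt
  have hnull : volume (e.symm '' T) = 0 :=
    addHaar_image_eq_zero_of_differentiableOn_of_addHaar_eq_zero volume hdiff
      (measure_mono_null inter_subset_left hN)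
  refine ⟨{y | (y ∈ e.source ∧ AnalyticAt ℂ f y ∧ deriv f y ≠ 0) ∧ f y ∈ N}, ?_, ?_⟩
  · have h1 : ∀ᶠ y in 𝓝 x, y ∈ e.source := e.open_source.mem_nhds hxs
    have h2 : ∀ᶠ y in 𝓝 x, AnalyticAt ℂ f y := hA.eventually_analyticAt
    have h3 : ∀ᶠ y in 𝓝 x, deriv f y ≠ 0 := hA.deriv.continuousAt.eventually_ne hd
    filter_upwards [mem_nhdsWithin_of_mem_nhds (h1.and (h2.and h3)), self_mem_nhdsWithin]
      with y h4 h5
    exact ⟨h4, h5.2⟩
  · refine measure_mono_null ?_ hnull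
    rintro y ⟨⟨h1, h2, h3⟩, h4⟩
    have h5 : e.symm (f y) = y := by
      have := e.left_inv h1
      rwa [hcoe] at this
    have h6 : f y ∈ e.target := by
      have := e.map_source h1
      rwa [hcoe] at this
    refine ⟨f y, ⟨h4, h6, ?_, ?_⟩, h5⟩
    · rw [h5]
      exact h2
    · rw [h5]
      exact h3

/-- scaling of the plane -/
theorem BND_map (a : ℝ) (ha : 0 < a) :
    Measure.map (fun x : ℂ => (a : ℂ) * x) volume = ENNReal.ofReal ((a ^ 2)⁻¹) • (volume : Measure ℂ) := by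
  have h := Measure.map_addHaar_smul (volume : Measure ℂ) (r := a) ha.ne'
  rw [Complex.finrank_real_complex, abs_of_nonneg (by positivity)] at h
  have e : (fun x : ℂ => (a : ℂ) * x) = fun x : ℂ => a • x := by
    funext x
    rw [Complex.real_smul]
  rw [e]
  exact h

/-- scaling as an equivalence -/
noncomputable def BND_e (a : ℝ) (ha : 0 < a) : ℂ ≃ᵐ ℂ :=
  (Homeomorph.mulLeft₀ (a : ℂ) (by exact_mod_cast ha.ne')).toMeasurableEquiv

theorem BND_e_apply (a : ℝ) (ha : 0 < a) (x : ℂ) : BND_e a ha x = (a : ℂ) * x := rfl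

theorem BND_e_coe (a : ℝ) (ha : 0 < a) : (BND_e a ha : ℂ → ℂ) = fun x => (a : ℂ) * x := rfl

theorem BND_cov1 (a : ℝ) (ha : 0 < a) (g : ℂ → ℝ≥0∞) (S : Set ℂ) :
    ENNReal.ofReal (a ^ 2) * ∫⁻ x in (fun x : ℂ => (a : ℂ) * x) ⁻¹' S, g ((a : ℂ) * x) =
      ∫⁻ y in S, g y := by
  have h1 := BND_map a ha
  have h2 : ∫⁻ x in (fun x : ℂ => (a : ℂ) * x) ⁻¹' S, g ((a : ℂ) * x) =
      ENNReal.ofReal ((a ^ 2)⁻¹) * ∫⁻ y in S, g y := by
    have h3 := (BND_e a ha).restrict_map volume S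
    have h4 := lintegral_map_equiv (μ := volume.restrict ((BND_e a ha) ⁻¹' S)) g (BND_e a ha)
    rw [← h3, BND_e_coe, h1, Measure.restrict_smul, lintegral_smul_measure, smul_eq_mul] at h4
    exact h4.symm
  rw [h2, ← mul_assoc, ← ENNReal.ofReal_mul (by positivity), mul_inv_cancel₀ (by positivity),
    ENNReal.ofReal_one, one_mul]

theorem BND_cov2 (a b : ℝ) (ha : 0 < a) (hb : 0 < b) (g : ℂ × ℂ → ℝ≥0∞) (S : Set (ℂ × ℂ)) :
    ENNReal.ofReal ((a * b) ^ 2) *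
      ∫⁻ p in (fun p : ℂ × ℂ => ((a : ℂ) * p.1, (b : ℂ) * p.2)) ⁻¹' S, g ((a : ℂ) * p.1, (b : ℂ) * p.2) =
      ∫⁻ q in S, g q := by
  set e : ℂ × ℂ ≃ᵐ ℂ × ℂ := MeasurableEquiv.prodCongr (BND_e a ha) (BND_e b hb) with he
  have hcoe : (e : ℂ × ℂ → ℂ × ℂ) = fun p : ℂ × ℂ => ((a : ℂ) * p.1, (b : ℂ) * p.2) := rfl
  have h1 : Measure.map e (volume : Measure (ℂ × ℂ)) =
      ENNReal.ofReal (((a * b) ^ 2)⁻¹) • (volume : Measure (ℂ × ℂ)) := by
    have h2 : (volume : Measure (ℂ × ℂ)) = (volume : Measure ℂ).prod volume := rfl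
    have h3 : (e : ℂ × ℂ → ℂ × ℂ) = Prod.map (fun x : ℂ => (a : ℂ) * x) (fun x : ℂ => (b : ℂ) * x) := rfl
    rw [h3, h2, ← Measure.map_prod_map _ _ (by fun_prop) (by fun_prop), BND_map a ha, BND_map b hb,
      Measure.prod_smul_left, Measure.prod_smul_right, smul_smul, ← ENNReal.ofReal_mul (by positivity)]
    congr 2
    rw [mul_pow, mul_inv]
  have h2 : ∫⁻ p in (fun p : ℂ × ℂ => ((a : ℂ) * p.1, (b : ℂ) * p.2)) ⁻¹' S,
      g ((a : ℂ) * p.1, (b : ℂ) * p.2) = ENNReal.ofReal (((a * b) ^ 2)⁻¹) * ∫⁻ q in S, g q := by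
    have h3 := e.restrict_map volume S
    have h4 := lintegral_map_equiv (μ := volume.restrict (e ⁻¹' S)) g e
    rw [← h3, h1, Measure.restrict_smul, lintegral_smul_measure, smul_eq_mul] at h4
    exact h4.symm
  rw [h2, ← mul_assoc, ← ENNReal.ofReal_mul (by positivity), mul_inv_cancel₀ (by positivity),
    ENNReal.ofReal_one, one_mul]

theorem BND_covr (a : ℝ) (ha : 0 < a) (g : ℂ → ℝ) (S : Set ℂ) :
    ∫ y in S, g y = ∫ x in (fun x : ℂ => (a : ℂ) * x) ⁻¹' S, a ^ 2 * g ((a : ℂ) * x) := by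
  have h1 := BND_map a ha
  have h3 := (BND_e a ha).restrict_map volume S
  have h4 := integral_map_equiv (μ := volume.restrict ((BND_e a ha) ⁻¹' S)) (BND_e a ha) g
  rw [← h3, BND_e_coe, h1, Measure.restrict_smul, integral_smul_measure,
    ENNReal.toReal_ofReal (by positivity), smul_eq_mul] at h4
  rw [integral_const_mul]
  have h5 : ∫ x in (fun x : ℂ => (a : ℂ) * x) ⁻¹' S, g ((a : ℂ) * x) = (a ^ 2)⁻¹ * ∫ y in S, g y :=
    h4.symm
  rw [h5, ← mul_assoc, mul_inv_cancel₀ (by positivity), one_mul]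

theorem BND_lapcont (T : ℂ → ℝ) (t : ℂ) (h : ContDiffAt ℝ ∞ T t) : ContinuousAt (lap T) t := by
  have h1 : ContinuousAt (iteratedFDeriv ℝ 2 T) t := by
    have h2 : ContDiffAt ℝ 0 (iteratedFDeriv ℝ 2 T) t :=
      h.iteratedFDeriv_right (by rw [zero_add]; exact WithTop.coe_le_coe.2 (le_top : (2 : ℕ∞) ≤ ⊤))
    exact h2.continuousAt
  have h3 : ∀ v : Fin 2 → ℂ, ContinuousAt (fun z => iteratedFDeriv ℝ 2 T z v) t := by
    intro v
    exact (ContinuousMultilinearMap.apply ℝ (fun _ : Fin 2 => ℂ) ℝ v).continuous.continuousAt.comp h1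
  exact ((h3 _).add (h3 _)).const_mul _

/-! ### constants do not matter -/

theorem BND_lap_congr {g1 g2 : ℂ → ℝ} {z : ℂ} {k : ℝ} (h : ∀ᶠ q in 𝓝 z, g1 q = g2 q + k) :
    lap g1 z = lap g2 z := by
  have h1 : fderiv ℝ g1 =ᶠ[𝓝 z] fderiv ℝ g2 := by
    filter_upwards [h.eventually_nhds] with q hq
    have h2 : g1 =ᶠ[𝓝 q] fun x => g2 x + k := hq
    rw [h2.fderiv_eq, fderiv_add_const]
  have h2 : fderiv ℝ (fderiv ℝ g1) z = fderiv ℝ (fderiv ℝ g2) z := h1.fderiv_eq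
  unfold lap
  rw [iteratedFDeriv_two_apply, iteratedFDeriv_two_apply, iteratedFDeriv_two_apply,
    iteratedFDeriv_two_apply, h2]

theorem BND_lev_congr {g1 g2 : ℂ × ℂ → ℝ} {p : ℂ × ℂ} {k : ℝ} (h : ∀ᶠ q in 𝓝 p, g1 q = g2 q + k)
    (a : ℂ × ℂ) : lev g1 p a = lev g2 p a := by
  have hc : Tendsto (fun t : ℂ => p + t • a) (𝓝 0) (𝓝 p) := by
    have h1 : Continuous (fun t : ℂ => p + t • a) := by fun_prop
    have h2 := h1.tendsto 0
    simpa using h2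
  exact BND_lap_congr (hc.eventually h)

theorem BND_MA_congr {A1 A2 B1 B2 : ℂ × ℂ → ℝ} {p : ℂ × ℂ} {k l : ℝ}
    (h : ∀ᶠ q in 𝓝 p, A1 q = A2 q + k) (h' : ∀ᶠ q in 𝓝 p, B1 q = B2 q + l) :
    MA A1 B1 p = MA A2 B2 p := by
  have e1 := BND_lev_congr h
  have e2 := BND_lev_congr h'
  unfold MA lre P2.lim
  simp only [e1, e2]

/-! ### branches -/

theorem BND_TBopen (a r : ℝ) : IsOpen (P2U.TB a r) :=
  (isOpen_lt (continuous_norm.comp continuous_fst) continuous_const).inter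
    (isOpen_lt (continuous_norm.comp continuous_snd) continuous_const)

/-- derivative of the equation along a branch -/
theorem BND_br {P Q : ℂ × ℂ → ℂ} {τ R : ℝ} (hol : P2U.Hol P Q 4 τ) (hR : R ≤ τ) {p0 q0 : ℂ}
    (h0 : p0 ≠ 0 ∨ q0 ≠ 0) {X : ℂ → ℂ} (hX : DifferentiableOn ℂ X (ball 0 R))
    (hlt : ∀ w ∈ ball (0 : ℂ) R, ‖X w‖ < 1)
    (heq : ∀ w ∈ ball (0 : ℂ) R, P (X w, w) * q0 = Q (X w, w) * p0) {w : ℂ}
    (hw : w ∈ ball (0 : ℂ) R) :
    P2U.cx P Q (X w, w) * deriv X w + P2U.cv P Q (X w, w) = 0 := by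
  have hmem : (X w, w) ∈ P2U.TB 4 τ := by
    refine ⟨(hlt w hw).trans (by norm_num), ?_⟩
    rw [mem_ball_zero_iff] at hw
    exact hw.trans_le hR
  have hXd : HasDerivAt X (deriv X w) w :=
    (hX.differentiableAt (isOpen_ball.mem_nhds hw)).hasDerivAt
  have hc : HasDerivAt (fun w => (X w, w)) (deriv X w, (1 : ℂ)) w := hXd.prodMk (hasDerivAt_id w)
  have hlin : ∀ f : ℂ × ℂ → ℂ, fderiv ℂ f (X w, w) (deriv X w, 1) =
      deriv X w * P2U.dx f (X w, w) + P2U.dv f (X w, w) := by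
    intro f
    have e : ((deriv X w, 1) : ℂ × ℂ) = deriv X w • ((1 : ℂ), (0 : ℂ)) + ((0 : ℂ), (1 : ℂ)) := by
      simp
    rw [e, map_add, map_smul]
    rfl
  have hP : HasDerivAt (fun w => P (X w, w)) (deriv X w * P2U.dx P (X w, w) + P2U.dv P (X w, w)) w := by
    have h := HasFDerivAt.comp_hasDerivAt (f := fun w => (X w, w)) w
      (hol.hP _ hmem).differentiableAt.hasFDerivAt hc
    rw [hlin] at h
    exact h
  have hQ : HasDerivAt (fun w => Q (X w, w)) (deriv X w * P2U.dx Q (X w, w) + P2U.dv Q (X w, w)) w := by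
    have h := HasFDerivAt.comp_hasDerivAt (f := fun w => (X w, w)) w
      (hol.hQ _ hmem).differentiableAt.hasFDerivAt hc
    rw [hlin] at h
    exact h
  have hev : (fun w => P (X w, w) * q0) =ᶠ[𝓝 w] fun w => Q (X w, w) * p0 := by
    filter_upwards [isOpen_ball.mem_nhds hw] with y hy
    exact heq y hy
  have hd : (deriv X w * P2U.dx P (X w, w) + P2U.dv P (X w, w)) * q0 =
      (deriv X w * P2U.dx Q (X w, w) + P2U.dv Q (X w, w)) * p0 := by
    have h1 := (hP.mul_const q0).deriv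
    have h2 := (hQ.mul_const p0).deriv
    rw [← h1, ← h2]
    exact hev.deriv_eq
  have he := heq w hw
  unfold P2U.cx P2U.cv
  rcases h0 with h0 | h0
  · apply mul_left_cancel₀ h0
    linear_combination (P (X w, w)) * hd + (-(deriv X w * P2U.dx P (X w, w) + P2U.dv P (X w, w))) * he
  · apply mul_left_cancel₀ h0
    linear_combination (Q (X w, w)) * hd + (-(deriv X w * P2U.dx Q (X w, w) + P2U.dv Q (X w, w))) * he

theorem BND_cx_an {P Q : ℂ × ℂ → ℂ} {a r : ℝ} (hol : P2U.Hol P Q a r) :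
    AnalyticOnNhd ℂ (P2U.cx P Q) (P2U.TB a r) := by
  intro p hp
  have h1 : AnalyticAt ℂ (P2U.dx P) p := by
    have h2 := (hol.hP p hp).fderiv
    exact (ContinuousLinearMap.apply ℂ ℂ ((1 : ℂ), (0 : ℂ))).analyticAt _ |>.comp h2
  have h3 : AnalyticAt ℂ (P2U.dx Q) p := by
    have h2 := (hol.hQ p hp).fderiv
    exact (ContinuousLinearMap.apply ℂ ℂ ((1 : ℂ), (0 : ℂ))).analyticAt _ |>.comp h2
  exact ((hol.hQ p hp).mul h1).sub ((hol.hP p hp).mul h3)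

theorem BND_slice {f : ℂ × ℂ → ℂ} {x : ℂ} (hf : AnalyticAt ℂ f (x, 0)) :
    AnalyticAt ℂ (fun y => f (y, 0)) x ∧ HasDerivAt (fun y => f (y, 0)) (P2U.dx f (x, 0)) x := by
  have h1 : HasDerivAt (fun y : ℂ => (y, (0 : ℂ))) ((1 : ℂ), (0 : ℂ)) x :=
    (hasDerivAt_id x).prodMk (hasDerivAt_const x (0 : ℂ))
  refine ⟨?_, ?_⟩
  · have h2 : AnalyticAt ℂ (fun y : ℂ => (y, (0 : ℂ))) x := analyticAt_id.prod analyticAt_const
    exact AnalyticAt.fun_comp (f := fun y : ℂ => (y, (0 : ℂ))) hf h2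
  · exact HasFDerivAt.comp_hasDerivAt (f := fun y : ℂ => (y, (0 : ℂ))) x
      hf.differentiableAt.hasFDerivAt h1

/-- the points of the slice with a critical value are a null set -/
theorem BND_crit (hUNUL : P2U.UNUL_stmt) (hUSNG : P2U.USNG_stmt) {P Q : ℂ × ℂ → ℂ} {τ : ℝ}
    (hτ : 0 < τ) (hol : P2U.Hol P Q 4 τ) :
    volume {x : ℂ | ‖x‖ < 1 / 2 ∧ P2U.cx P Q (x, 0) ≠ 0 ∧ ∃ p ∈ P2U.TB 4 τ,
      P p * Q (x, 0) = Q p * P (x, 0) ∧ P2U.cx P Q p = 0 ∧ P2U.cv P Q p = 0} = 0 := by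
  by_cases hex : ∃ p ∈ P2U.TB 4 τ, P2U.cx P Q p ≠ 0
  · have h1 : volume {p : ℂ × ℂ | p ∈ P2U.TB 4 τ ∧ P2U.cx P Q p = 0 ∧ P2U.cv P Q p = 0} = 0 := by
      refine measure_mono_null ?_ (hUNUL _ 4 τ (BND_cx_an hol) hex)
      rintro p ⟨h2, h3, -⟩
      exact ⟨h2, h3⟩
    have h2 := hUSNG P Q 4 τ hol h1
    set N : Set ℂ := {ζ : ℂ | ∃ p ∈ P2U.TB 4 τ, P p = ζ * Q p ∧ P2U.cx P Q p = 0 ∧ P2U.cv P Q p = 0}
      with hN
    have hmem : ∀ x : ℂ, ‖x‖ < 1 / 2 → (x, (0 : ℂ)) ∈ P2U.TB 4 τ := by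
      intro x hx
      refine ⟨hx.trans (by norm_num), ?_⟩
      show ‖(0 : ℂ)‖ < τ
      rw [norm_zero]
      exact hτ
    have h3 := BND_pre (fun y => P (y, 0) / Q (y, 0))
      {x | ‖x‖ < 1 / 2 ∧ P2U.cx P Q (x, 0) ≠ 0 ∧ Q (x, 0) ≠ 0} N (by
        rintro x ⟨hx, hcx, hQ⟩
        obtain ⟨a1, d1⟩ := BND_slice (hol.hP _ (hmem x hx))
        obtain ⟨a2, d2⟩ := BND_slice (hol.hQ _ (hmem x hx))
        refine ⟨a1.div a2 hQ, ?_⟩
        have d3 : HasDerivAt (fun y => P (y, 0) / Q (y, 0)) _ x := d1.div d2 hQ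
        rw [d3.deriv]
        apply div_ne_zero _ (pow_ne_zero 2 hQ)
        intro h
        apply hcx
        unfold P2U.cx
        linear_combination h) h2
    have h4 := BND_pre (fun y => Q (y, 0))
      {x | ‖x‖ < 1 / 2 ∧ P2U.cx P Q (x, 0) ≠ 0 ∧ Q (x, 0) = 0} {0} (by
        rintro x ⟨hx, hcx, hQ⟩
        obtain ⟨a2, d2⟩ := BND_slice (hol.hQ _ (hmem x hx))
        refine ⟨a2, ?_⟩
        rw [d2.deriv]
        intro h
        apply hcx
        unfold P2U.cx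
        rw [h, hQ]
        ring) (by simp)
    refine measure_mono_null ?_ (measure_union_null h3 h4)
    rintro x ⟨hx, hcx, p, hp, he, c1, c2⟩
    by_cases hQ : Q (x, 0) = 0
    · right
      exact ⟨⟨hx, hcx, hQ⟩, hQ⟩
    · left
      refine ⟨⟨hx, hcx, hQ⟩, p, hp, ?_, c1, c2⟩
      show P p = P (x, 0) / Q (x, 0) * Q p
      field_simp
      linear_combination he
  · push Not at hex
    have : {x : ℂ | ‖x‖ < 1 / 2 ∧ P2U.cx P Q (x, 0) ≠ 0 ∧ ∃ p ∈ P2U.TB 4 τ,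
      P p * Q (x, 0) = Q p * P (x, 0) ∧ P2U.cx P Q p = 0 ∧ P2U.cv P Q p = 0} = ∅ := by
      apply eq_empty_of_forall_notMem
      rintro x ⟨hx, hcx, -⟩
      apply hcx
      apply hex
      refine ⟨hx.trans (by norm_num), ?_⟩
      show ‖(0 : ℂ)‖ < τ
      rw [norm_zero]
      exact hτ
    rw [this]
    simp

end Pool.Agent.P2B
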