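import Pool.Agent.helper56.P2.SpecW
import Pool.Agent.helper51.P2.CH1
import Pool.Agent.helper98.P2.BNDa

/-!
# p2:WDA (MP_063734_an)
-/

set_option autoImplicit false

open scoped ContDiff Topology ComplexConjugate ENNReal
open MeasureTheory Filter Set Metric MvPolynomial Pool.Agent.helper37.QA

namespace Pool.Agent.P2W

open Pool.Agent.P2

theorem WDA_cov (ξ0 : ℂ) (ρ : ℝ) (hρ : 0 < ρ) (g : ℂ → ℝ≥0∞) (S : Set ℂ) :
    ∫⁻ y in S, g y = ENNReal.ofReal (ρ ^ 2) *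
      ∫⁻ x in (fun x : ℂ => ξ0 + (ρ : ℂ) * x) ⁻¹' S, g (ξ0 + (ρ : ℂ) * x) := by
  have h1 := (measurePreserving_add_left (volume : Measure ℂ) ξ0).setLIntegral_comp_preimage_emb
    (measurableEmbedding_addLeft ξ0) g S
  have h2 := P2B.BND_cov1 ρ hρ (fun y => g (ξ0 + y)) ((fun y => ξ0 + y) ⁻¹' S)
  rw [← h1, ← h2]
  rfl

theorem WDA_un {d : ℕ} (f : Endo 2 d) (hd : 2 ≤ d) {n N : ℕ} (hn : n ≤ N) (Z : E3) :
    un f (N - n) (It f n Z) = (d : ℝ) ^ n * un f N Z := by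
  have h1 : It f (N - n) (It f n Z) = It f N Z := by
    unfold It
    rw [← pmap_iter_add, Nat.sub_add_cancel hn]
  have hd0 : (d : ℝ) ≠ 0 := by
    have : d ≠ 0 := by omega
    exact_mod_cast this
  unfold un
  rw [h1]
  have h2 : (d : ℝ) ^ N = (d : ℝ) ^ (N - n) * (d : ℝ) ^ n := by
    rw [← pow_add, Nat.sub_add_cancel hn]
  rw [h2]
  field_simp

theorem WDA_h (d : ℕ) (hd : 2 ≤ d) (η0 : ℝ) (h0 : 0 < η0) : ∃ M : ℕ, ∀ m : ℕ, M ≤ m →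
    ∃ h : ℝ, 0 < h ∧ h ≤ η0 ∧ h⁻¹ ^ 5 ≤ (d : ℝ) ^ m ∧ (d : ℝ) ^ m ≤ h⁻¹ ^ 6 := by
  have hd1 : (1 : ℝ) < d := by
    have : 1 < d := by omega
    exact_mod_cast this
  have hd0 : (0 : ℝ) < d := by linarith
  set q : ℝ := (d : ℝ) ^ (-(2 / 11) : ℝ) with hq
  have hq0 : 0 < q := Real.rpow_pos_of_pos hd0 _
  have hq1 : q < 1 := Real.rpow_lt_one_of_one_lt_of_neg hd1 (by norm_num)
  have hqi : q⁻¹ = (d : ℝ) ^ ((2 / 11) : ℝ) := by
    rw [hq, Real.rpow_neg hd0.le, inv_inv]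
  have e5 : q⁻¹ ^ 5 ≤ d := by
    rw [hqi, ← Real.rpow_natCast, ← Real.rpow_mul hd0.le]
    calc (d : ℝ) ^ ((2 / 11 : ℝ) * ((5 : ℕ) : ℝ)) ≤ (d : ℝ) ^ (1 : ℝ) :=
          Real.rpow_le_rpow_of_exponent_le hd1.le (by norm_num)
      _ = d := Real.rpow_one _
  have e6 : (d : ℝ) ≤ q⁻¹ ^ 6 := by
    rw [hqi, ← Real.rpow_natCast, ← Real.rpow_mul hd0.le]
    calc (d : ℝ) = (d : ℝ) ^ (1 : ℝ) := (Real.rpow_one _).symm
      _ ≤ (d : ℝ) ^ ((2 / 11 : ℝ) * ((6 : ℕ) : ℝ)) :=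
          Real.rpow_le_rpow_of_exponent_le hd1.le (by norm_num)
  have ht : Tendsto (fun m : ℕ => q ^ m) atTop (𝓝 0) := tendsto_pow_atTop_nhds_zero_of_lt_one hq0.le hq1
  obtain ⟨M, hM⟩ := eventually_atTop.1 (ht.eventually_le_const h0)
  refine ⟨M, fun m hm => ⟨q ^ m, by positivity, hM m hm, ?_, ?_⟩⟩
  · have e : (q ^ m)⁻¹ ^ 5 = (q⁻¹ ^ 5) ^ m := by
      rw [← inv_pow, ← pow_mul, ← pow_mul, mul_comm]
    rw [e]
    exact pow_le_pow_left₀ (by positivity) e5 m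
  · have e : (q ^ m)⁻¹ ^ 6 = (q⁻¹ ^ 6) ^ m := by
      rw [← inv_pow, ← pow_mul, ← pow_mul, mul_comm]
    rw [e]
    exact pow_le_pow_left₀ hd0.le e6 m

/-- the mass in the coordinates of the small disc -/
theorem WDA_mass {d : ℕ} (f : Endo 2 d) (U : Set (PP 2)) (hd : 2 ≤ d) {τ κ C0 α : ℝ} (hτ : 0 < τ)
    (hκ : 0 < κ) (hκ1 : κ ≤ 1 / 10) (hWC : WC f U τ κ C0 α) (hWM1 : WM1_stmt) {ι : Fin 2} {c : ℂ} {γ : ℂ → ℂ}
    (hT : Tb U τ ι c κ γ) {n N : ℕ} (hnN : n ≤ N) {ξ0 : ℂ} (hξ : ‖ξ0‖ ≤ 1 / 16) {ρ : ℝ} (hρ : 0 < ρ)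
    (hρ1 : ρ ≤ 1 / 16) (B1 : Set ℂ) (hB : MeasurableSet B1) {A : ℝ}
    (h : ∫ x in B1 ∩ ball 0 (1 / 3), lap (fun x => un f (N - n) (sF f n ι c κ γ ξ0 ρ (x, 0))) x ≤
      A * (d : ℝ) ^ n) :
    ms f N ι c κ γ 0 ({ξ | (ξ - ξ0) / (ρ : ℂ) ∈ B1} ∩ ball ξ0 (ρ / 3)) ≤ ENNReal.ofReal A := by
  obtain ⟨hM1, -, hM2, hM3⟩ := hWM1 d f U hd τ κ C0 α hτ hκ hκ1 hWC ι c γ hT N
  obtain ⟨hlap, hsm, -⟩ := hM1 0 (mem_ball_self hτ)
  have hd0 : (0 : ℝ) < d := by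
    have : 0 < d := by omega
    exact_mod_cast this
  have hdn : (0 : ℝ) < (d : ℝ) ^ n := by positivity
  have hρc : (ρ : ℂ) ≠ 0 := by exact_mod_cast hρ.ne'
  have hin : ∀ x : ℂ, ‖x‖ < 1 → ξ0 + (ρ : ℂ) * x ∈ ball (0 : ℂ) 1 := by
    intro x hx
    rw [mem_ball_zero_iff]
    refine (norm_add_le _ _).trans_lt ?_
    rw [norm_mul, Complex.norm_real, Real.norm_of_nonneg hρ.le]
    nlinarith
  have hl : ∀ x : ℂ, ‖x‖ < 1 → lap (fun x => un f (N - n) (sF f n ι c κ γ ξ0 ρ (x, 0))) x =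
      (d : ℝ) ^ n * (ρ ^ 2 * gt f N ι c κ γ (ξ0 + (ρ : ℂ) * x, 0)) := by
    intro x hx
    have e1 : (fun x => un f (N - n) (sF f n ι c κ γ ξ0 ρ (x, 0))) = fun x : ℂ =>
        (d : ℝ) ^ n * un f N (gp ι c κ γ (ξ0 + (ρ : ℂ) * x, 0)) := by
      funext y
      unfold sF Sc
      rw [WDA_un f hd hnN]
      simp only [mul_zero]
    have h2 : ContDiffAt ℝ ∞ (fun ξ => un f N (gp ι c κ γ (ξ, 0))) (ξ0 + (ρ : ℂ) * x) :=
      hsm.contDiffAt (isOpen_ball.mem_nhds (hin x hx))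
    have h3 := P2I.CH1.1 univ (fun y => ξ0 + (ρ : ℂ) * y) (fun ξ => (d : ℝ) ^ n * un f N (gp ι c κ γ (ξ, 0))) x
      isOpen_univ (by fun_prop) (mem_univ x)
      ((contDiffAt_const.mul h2).of_le (WithTop.coe_le_coe.2 (le_top : (2 : ℕ∞) ≤ ⊤)))
    have h4 : deriv (fun y : ℂ => ξ0 + (ρ : ℂ) * y) x = (ρ : ℂ) := by
      rw [deriv_const_add, deriv_const_mul_field, deriv_id'', mul_one]
    have h5 : lap (fun ξ => (d : ℝ) ^ n * un f N (gp ι c κ γ (ξ, 0))) (ξ0 + (ρ : ℂ) * x) =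
        (d : ℝ) ^ n * lap (fun ξ => un f N (gp ι c κ γ (ξ, 0))) (ξ0 + (ρ : ℂ) * x) := by
      unfold lap
      have h6 : iteratedFDeriv ℝ 2 (fun ξ => (d : ℝ) ^ n * un f N (gp ι c κ γ (ξ, 0))) (ξ0 + (ρ : ℂ) * x) =
          (d : ℝ) ^ n • iteratedFDeriv ℝ 2 (fun ξ => un f N (gp ι c κ γ (ξ, 0))) (ξ0 + (ρ : ℂ) * x) :=
        iteratedFDeriv_const_smul_apply (a := (d : ℝ) ^ n)
          (h2.of_le (WithTop.coe_le_coe.2 (le_top : (2 : ℕ∞) ≤ ⊤)))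
      rw [h6]
      simp only [smul_apply, smul_eq_mul]
      ring
    rw [e1, h3, h4, Complex.normSq_ofReal, h5, ← hlap _ (hin x hx)]
    ring
  have hcont : ContinuousOn (fun x : ℂ => gt f N ι c κ γ (ξ0 + (ρ : ℂ) * x, 0)) (ball 0 1) := by
    refine ContinuousOn.comp (g := gt f N ι c κ γ) (f := fun x : ℂ => (ξ0 + (ρ : ℂ) * x, (0 : ℂ)))
      (t := P2U.TB 1 τ) hM2 (by fun_prop) ?_
    intro x hx
    rw [mem_ball_zero_iff] at hx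
    refine ⟨?_, ?_⟩
    · have := hin x hx
      rw [mem_ball_zero_iff] at this
      exact this
    · show ‖(0 : ℂ)‖ < τ
      rw [norm_zero]
      exact hτ
  set S : Set ℂ := B1 ∩ ball 0 (1 / 3) with hS
  have hSm : MeasurableSet S := hB.inter measurableSet_ball
  have hSb : ∀ x ∈ S, ‖x‖ < 1 := by
    rintro x ⟨-, hx⟩
    rw [mem_ball_zero_iff] at hx
    linarith
  have hint : IntegrableOn (fun x : ℂ => gt f N ι c κ γ (ξ0 + (ρ : ℂ) * x, 0)) S := by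
    have h1 : ContinuousOn (fun x : ℂ => gt f N ι c κ γ (ξ0 + (ρ : ℂ) * x, 0)) (closedBall (0 : ℂ) (1 / 3)) :=
      hcont.mono (closedBall_subset_ball (by norm_num))
    refine (h1.integrableOn_compact (isCompact_closedBall _ _)).mono_set ?_
    exact inter_subset_right.trans ball_subset_closedBall
  have hI : ρ ^ 2 * ∫ x in S, gt f N ι c κ γ (ξ0 + (ρ : ℂ) * x, 0) ≤ A := by
    have h1 : ∫ x in S, lap (fun x => un f (N - n) (sF f n ι c κ γ ξ0 ρ (x, 0))) x =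
        (d : ℝ) ^ n * (ρ ^ 2 * ∫ x in S, gt f N ι c κ γ (ξ0 + (ρ : ℂ) * x, 0)) := by
      rw [← integral_const_mul, ← integral_const_mul]
      exact setIntegral_congr_fun hSm (fun x hx => hl x (hSb x hx))
    rw [h1, mul_comm] at h
    exact le_of_mul_le_mul_right h hdn
  have hpre : (fun x : ℂ => ξ0 + (ρ : ℂ) * x) ⁻¹' ({ξ | (ξ - ξ0) / (ρ : ℂ) ∈ B1} ∩ ball ξ0 (ρ / 3)) = S := by
    ext x
    have e1 : (ξ0 + (ρ : ℂ) * x - ξ0) / (ρ : ℂ) = x := by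
      rw [add_sub_cancel_left, mul_div_cancel_left₀ _ hρc]
    have e2 : dist (ξ0 + (ρ : ℂ) * x) ξ0 = ρ * ‖x‖ := by
      rw [dist_eq_norm, add_sub_cancel_left, norm_mul, Complex.norm_real, Real.norm_of_nonneg hρ.le]
    constructor
    · rintro ⟨a1, a2⟩
      have a3 : (ξ0 + (ρ : ℂ) * x - ξ0) / (ρ : ℂ) ∈ B1 := a1
      rw [e1] at a3
      refine ⟨a3, ?_⟩
      rw [mem_ball, e2] at a2
      rw [mem_ball_zero_iff]
      have a4 : ρ * ‖x‖ < ρ * (1 / 3) := by linarith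
      exact lt_of_mul_lt_mul_left a4 hρ.le
    · rintro ⟨a1, a2⟩
      refine ⟨?_, ?_⟩
      · show (ξ0 + (ρ : ℂ) * x - ξ0) / (ρ : ℂ) ∈ B1
        rw [e1]
        exact a1
      · rw [mem_ball_zero_iff] at a2
        rw [mem_ball, e2]
        have := mul_lt_mul_of_pos_left a2 hρ
        linarith
  unfold ms
  rw [WDA_cov ξ0 ρ hρ, hpre, ← ofReal_integral_eq_lintegral_ofReal hint
    (Eventually.of_forall fun x => hM3 _), ← ENNReal.ofReal_mul (by positivity)]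
  exact ENNReal.ofReal_le_ofReal hI

theorem WDA (hBND : P2B.BND_stmt) (hWHO : WHO_stmt) (hWDT : WDT_stmt) (hWM1 : WM1_stmt) (hWNN : WNN_stmt) (hWQA : WQA_stmt) : WDA_stmt := by
  intro d f U hd τ κ Λ1 C0 α hτ hκ hκ1 hΛ hWC
  obtain ⟨CN, hCN, hWNN⟩ := hWNN d f U hd τ κ Λ1 C0 α hτ hκ hκ1 hΛ hWC
  obtain ⟨CB, hCB, hBND⟩ := hBND C0 α hWC.c1 hWC.a0 hWC.a1
  refine ⟨CB * CN, by positivity, ?_⟩
  intro ρ μ0 δ hρ hρ1 hρτ hμ0 hδ
  set e : ℝ := δ / (5 * CB) with he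
  have he0 : 0 < e := by positivity
  obtain ⟨t1, ε2, ht1, hε2, hWNN⟩ := hWNN ρ μ0 e hρ hρ1 hρτ hμ0 he0
  refine ⟨t1, ε2, ht1, hε2, ?_⟩
  intro t ht htt m0 s0 hs0
  obtain ⟨m1, hWNN⟩ := hWNN t ht htt
  have hκρ : 0 < κ * ρ := by positivity
  obtain ⟨M, hM⟩ := WDA_h d hd (min (1 / 40) (min (s0 / (4 * (κ * ρ))) (e ^ (1 / α))))
    (lt_min (by norm_num) (lt_min (by positivity) (Real.rpow_pos_of_pos he0 _)))
  set m : ℕ := max m0 (max m1 M) with hm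
  obtain ⟨h, hh0, hh1, hh5, hh6⟩ := hM m ((le_max_right _ _).trans (le_max_right _ _))
  obtain ⟨nm, hWNN⟩ := hWNN m ((le_max_left _ _).trans (le_max_right _ _))
  have hh40 : h ≤ 1 / 40 := hh1.trans (min_le_left _ _)
  have hhs : 4 * (κ * ρ * h) ≤ s0 := by
    have h1 : h ≤ s0 / (4 * (κ * ρ)) := hh1.trans ((min_le_right _ _).trans (min_le_left _ _))
    rw [le_div_iff₀ (by positivity)] at h1
    linarith
  have hhα : h ^ α ≤ e := by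
    have h1 : h ≤ e ^ (1 / α) := hh1.trans ((min_le_right _ _).trans (min_le_right _ _))
    calc h ^ α ≤ (e ^ (1 / α)) ^ α := Real.rpow_le_rpow hh0.le h1 hWC.a0.le
      _ = e := by
        rw [← Real.rpow_mul he0.le, one_div, inv_mul_cancel₀ hWC.a0.ne', Real.rpow_one]
  set L : ℝ := max 1 (1 / e) with hL
  have hL1 : 1 ≤ L := le_max_left _ _
  have hLe : 1 / L ≤ e := by
    have h1 : 1 / e ≤ L := le_max_right _ _
    rw [div_le_iff₀ he0] at h1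
    rw [div_le_iff₀ (by linarith)]
    linarith
  set k : ℝ := min (1 / 4) (Real.sqrt e) with hk
  have hk0 : 0 < k := lt_min (by norm_num) (Real.sqrt_pos.2 he0)
  have hk1 : k ≤ 1 / 4 := min_le_left _ _
  have hk2 : k ^ 2 ≤ e := by
    calc k ^ 2 ≤ Real.sqrt e ^ 2 := pow_le_pow_left₀ hk0.le (min_le_right _ _) 2
      _ = e := Real.sq_sqrt he0.le
  have hexp0 : 0 < Real.exp (-L) := Real.exp_pos _
  have hexp1 : Real.exp (-L) ≤ 1 := Real.exp_le_one_iff.2 (by linarith)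
  refine ⟨m, h, k * Real.exp (-L) / 3200, h * Real.exp (-L) / 3200, le_max_left _ _, hh0, by linarith, hhs,
    by positivity, ?_, by positivity, ?_, ?_⟩
  · have : k * Real.exp (-L) ≤ 1 * 1 := mul_le_mul (by linarith) hexp1 hexp0.le (by norm_num)
    linarith
  · have : h * Real.exp (-L) ≤ 1 * 1 := mul_le_mul (by linarith) hexp1 hexp0.le (by norm_num)
    linarith
  intro σ hσ
  obtain ⟨η, D0, hη, hD0, hBND⟩ := hBND k L h σ e hk0 hk1 hL1 hh0 hh40 hσ he0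
  have hd1 : (1 : ℝ) < d := by
    have : 1 < d := by omega
    exact_mod_cast this
  obtain ⟨n1, hn1⟩ := pow_unbounded_of_one_lt (max D0 (1 / h)) hd1
  refine ⟨max nm n1, η, hη, ?_⟩
  intro ι c γ n N ξ0 E0 hT hn hnN hξ hms hQR hQA hE0 hGd
  have hD : max D0 (1 / h) ≤ (d : ℝ) ^ n :=
    hn1.le.trans (pow_le_pow_right₀ hd1.le ((le_max_right _ _).trans hn))
  obtain ⟨b, hb, hNm, hNN⟩ := hWNN h hh0 hh5 hh6 ι c γ n N ξ0 E0 hT ((le_max_left _ _).trans hn) hnN hξ hms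
    hQR hE0 hGd
  have hSc : ∀ p ∈ P2U.TB 4 1, Sc ξ0 ρ κ p ∈ P2U.TB 1 τ := by
    rintro p ⟨h1, h2⟩
    refine ⟨?_, ?_⟩
    · show ‖ξ0 + (ρ : ℂ) * p.1‖ < 1
      refine (norm_add_le _ _).trans_lt ?_
      rw [norm_mul, Complex.norm_real, Real.norm_of_nonneg hρ.le]
      nlinarith
    · show ‖(κ : ℂ) * ((ρ : ℂ) * p.2)‖ < τ
      rw [norm_mul, norm_mul, Complex.norm_real, Complex.norm_real, Real.norm_of_nonneg hρ.le,
        Real.norm_of_nonneg hκ.le]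
      have h3 : κ * (ρ * ‖p.2‖) ≤ κ * ρ := by
        rw [← mul_assoc]
        exact mul_le_of_le_one_right hκρ.le h2.le
      linarith
  have hmem : ∀ p ∈ P2U.TB 4 1, sF f n ι c κ γ ξ0 ρ p ∈ cone U := fun p hp =>
    hWC.mem ι c γ hT n _ (hSc p hp)
  have hdf : DifferentiableOn ℂ (sF f n ι c κ γ ξ0 ρ) (P2U.TB 4 1) := fun p hp =>
    ((hWHO d f ι c κ γ n hT.hd).2 ξ0 ρ hξ hρ hρ1 p hp.1).differentiableAt.differentiableWithinAt
  have hdat := hWDT d f U hd τ κ C0 α hτ hκ hκ1 hWC ι c γ hT n ξ0 ρ hξ hρ hρ1 (by linarith)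
  have harea := hWQA d f U hd τ κ C0 α hτ hκ hκ1 hWC ι c γ n N ξ0 ρ h η hT hnN hξ hρ hρ1 hρτ hh0
    (by linarith) hQA
  rw [mul_comm] at harea
  obtain ⟨B1, hB1m, hB1, hB1i⟩ := hBND (cone U) (un f (N - n)) (sF f n ι c κ γ ξ0 ρ)
    (fun p => un f n (gp ι c κ γ (Sc ξ0 ρ κ p))) ((d : ℝ) ^ n) 1 (CN * E0 + e) b (hWC.cd (N - n)) hmem hdf hdat
    le_rfl (by linarith) ((le_max_right _ _).trans hD) ((le_max_left _ _).trans hD) (by positivity) hb hNm hNN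
    harea
  have hρc : (ρ : ℂ) ≠ 0 := by exact_mod_cast hρ.ne'
  refine ⟨{ξ | (ξ - ξ0) / (ρ : ℂ) ∈ B1}, ?_, ?_, ?_⟩
  · exact hB1m.preimage ((measurable_id.sub_const ξ0).div_const _)
  · intro x hx hxB
    refine hB1 x hx ?_
    intro h1
    apply hxB
    show (ξ0 + (ρ : ℂ) * x - ξ0) / (ρ : ℂ) ∈ B1
    rw [add_sub_cancel_left, mul_div_cancel_left₀ _ hρc]
    exact h1
  · have hA : CB * (d : ℝ) ^ n * (CN * E0 + e + h ^ α + k ^ 2 + 1 / L + e) ≤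
        (CB * CN * E0 + δ) * (d : ℝ) ^ n := by
      have h1 : CB * (CN * E0 + e + h ^ α + k ^ 2 + 1 / L + e) ≤ CB * (CN * E0 + 5 * e) :=
        mul_le_mul_of_nonneg_left (by linarith) hCB.le
      have h2 : CB * (5 * e) = δ := by
        rw [he]
        field_simp
      have h3 : CB * (CN * E0 + 5 * e) = CB * CN * E0 + δ := by
        rw [mul_add, h2]
        ring
      rw [h3] at h1
      have h4 : (0 : ℝ) ≤ (d : ℝ) ^ n := by positivity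
      have h5 := mul_le_mul_of_nonneg_right h1 h4
      linarith
    exact WDA_mass f U hd hτ hκ hκ1 hWC hWM1 hT hnN hξ hρ hρ1 B1 hB1m (hB1i.trans hA)

end Pool.Agent.P2W
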