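import Pool.Agent.helper98.P2.BNDa

/-!
# p2:BND (MP_063734_an), rescaled data
-/

set_option autoImplicit false

open scoped ContDiff Topology ComplexConjugate ENNReal
open MeasureTheory Filter Set Metric

namespace Pool.Agent.P2B

open Pool.Agent.P2 Pool.Agent.P2I

/-- rescaled data -/
noncomputable def BND_sc (c a b : ℝ) (F : ℂ × ℂ → E3) (p : ℂ × ℂ) : E3 :=
  (c : ℂ) • F ((a : ℂ) * p.1, (b : ℂ) * p.2)

theorem BND_sc_app (c a b : ℝ) (F : ℂ × ℂ → E3) (p : ℂ × ℂ) (i : Fin 3) :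
    BND_sc c a b F p i = (c : ℂ) * F ((a : ℂ) * p.1, (b : ℂ) * p.2) i := rfl

/-- the scaling map -/
noncomputable def BND_ps (a b : ℝ) (p : ℂ × ℂ) : ℂ × ℂ := ((a : ℂ) * p.1, (b : ℂ) * p.2)

theorem BND_ps_diff (a b : ℝ) : Differentiable ℂ (BND_ps a b) :=
  (differentiable_fst.const_mul _).prodMk (differentiable_snd.const_mul _)

theorem BND_mem {τ s : ℝ} (hs : 0 < s) (hst : s ≤ τ / 4) {p : ℂ × ℂ} (hp : p ∈ BI) :
    (((2 : ℝ) : ℂ) * p.1, ((s / 6 : ℝ) : ℂ) * p.2) ∈ P2U.TB 4 τ ∧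
      ‖(((2 : ℝ) : ℂ) * p.1, ((s / 6 : ℝ) : ℂ) * p.2) - ((0 : ℂ), (0 : ℂ))‖ ≤ max 2 (s / 6) := by
  obtain ⟨h1, h2⟩ := hp
  rw [mem_ball_zero_iff] at h1 h2
  have e1 : ‖((2 : ℝ) : ℂ) * p.1‖ = 2 * ‖p.1‖ := by
    rw [norm_mul, Complex.norm_real, Real.norm_of_nonneg (by norm_num)]
  have e2 : ‖((s / 6 : ℝ) : ℂ) * p.2‖ = s / 6 * ‖p.2‖ := by
    rw [norm_mul, Complex.norm_real, Real.norm_of_nonneg (by positivity)]
  have e3 : s / 6 * ‖p.2‖ ≤ s / 6 := by nlinarith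
  refine ⟨⟨?_, ?_⟩, ?_⟩
  · show ‖((2 : ℝ) : ℂ) * p.1‖ < 4
    rw [e1]
    linarith
  · show ‖((s / 6 : ℝ) : ℂ) * p.2‖ < τ
    rw [e2]
    linarith
  · rw [Prod.norm_def]
    show max ‖((2 : ℝ) : ℂ) * p.1 - 0‖ ‖((s / 6 : ℝ) : ℂ) * p.2 - 0‖ ≤ _
    rw [sub_zero, sub_zero, e1, e2]
    exact max_le_max (by linarith) e3

theorem BND_zero_mem {τ : ℝ} (hτ : 0 < τ) : ((0 : ℂ), (0 : ℂ)) ∈ P2U.TB 4 τ := by
  refine ⟨?_, ?_⟩
  · show ‖(0 : ℂ)‖ < 4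
    rw [norm_zero]
    norm_num
  · show ‖(0 : ℂ)‖ < τ
    rw [norm_zero]
    exact hτ

theorem BND_Up {c : ℝ} (hc : 0 < c) {a b : ℂ} (h : a ≠ 0 ∨ b ≠ 0) :
    (1 / 2) * Real.log (Complex.normSq ((c : ℂ) * a) + Complex.normSq ((c : ℂ) * b)) =
      Real.log c + Real.log (‖a‖ ^ 2 + ‖b‖ ^ 2) / 2 := by
  have h1 : Complex.normSq ((c : ℂ) * a) + Complex.normSq ((c : ℂ) * b) =
      c ^ 2 * (‖a‖ ^ 2 + ‖b‖ ^ 2) := by
    rw [Complex.normSq_mul, Complex.normSq_mul, Complex.normSq_ofReal, Complex.normSq_eq_norm_sq,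
      Complex.normSq_eq_norm_sq]
    ring
  have h2 : 0 < ‖a‖ ^ 2 + ‖b‖ ^ 2 := by
    rcases h with h | h
    · have := norm_pos_iff.2 h
      positivity
    · have := norm_pos_iff.2 h
      positivity
  rw [h1, Real.log_mul (by positivity) h2.ne', Real.log_pow]
  push_cast
  ring

theorem BND_FD {Ω : Set E3} {G : E3 → ℝ} {F : ℂ × ℂ → E3} {u : ℂ × ℂ → ℝ} {C0 α D τ s : ℝ}
    (hCD : CD Ω G C0 α) (hF : ∀ p ∈ P2U.TB 4 τ, F p ∈ Ω) (hd : DifferentiableOn ℂ F (P2U.TB 4 τ))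
    (hD : P2U.Dat (fun p => F p 0) (fun p => F p 1) u D C0 α τ) (hα : 0 < α) (hα1 : α ≤ 1)
    (hC0 : 1 ≤ C0) (hD1 : 1 ≤ D) (hs : 0 < s) (hst : s ≤ τ / 4) (hτ : τ ≤ 1) :
    FD Ω (BND_sc (Real.exp (-(D * u (0, 0)))) 2 (s / 6) F) (3 * C0 * D) := by
  set c : ℝ := Real.exp (-(D * u (0, 0))) with hc
  have hc0 : 0 < c := Real.exp_pos _
  have hc1 : (c : ℂ) ≠ 0 := by exact_mod_cast hc0.ne'
  have hdf : DifferentiableOn ℂ (BND_sc c 2 (s / 6) F) BI := by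
    have h1 : DifferentiableOn ℂ (fun p => F (BND_ps 2 (s / 6) p)) BI :=
      hd.comp (BND_ps_diff 2 (s / 6)).differentiableOn (fun p hp => (BND_mem hs hst hp).1)
    exact h1.const_smul (c : ℂ)
  have hi : ∀ i : Fin 3, DifferentiableOn ℂ (fun p => BND_sc c 2 (s / 6) F p i) BI := by
    intro i
    exact differentiableOn_pi.1 hdf i
  refine ⟨hdf, fun p hp => hCD.sc _ (hF _ (BND_mem hs hst hp).1) _ hc1, ?_⟩
  refine ⟨?_, hi 0, hi 1, ?_, ?_⟩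
  · have : 1 * 1 ≤ C0 * D := mul_le_mul hC0 hD1 (by norm_num) (by linarith)
    nlinarith
  · intro p hp
    rcases hD.hol.ne _ (BND_mem hs hst hp).1 with h | h
    · left
      exact mul_ne_zero hc1 h
    · right
      exact mul_ne_zero hc1 h
  · intro p hp
    obtain ⟨hm, hn⟩ := BND_mem hs hst hp
    set q : ℂ × ℂ := (((2 : ℝ) : ℂ) * p.1, ((s / 6 : ℝ) : ℂ) * p.2) with hq
    have h1 : Up (sl (fun p => BND_sc c 2 (s / 6) F p 0) p.2) (sl (fun p => BND_sc c 2 (s / 6) F p 1) p.2)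
        p.1 = Real.log c + Real.log (‖F q 0‖ ^ 2 + ‖F q 1‖ ^ 2) / 2 :=
      BND_Up hc0 (hD.hol.ne q hm)
    have h2 : |Real.log (‖F q 0‖ ^ 2 + ‖F q 1‖ ^ 2) / 2 - D * u q| ≤ C0 := hD.app q hm
    have h3 := hD.hoe q hm _ (BND_zero_mem (by linarith))
    have h4 : ‖q - ((0 : ℂ), (0 : ℂ))‖ ^ α ≤ 2 := by
      have h5 : ‖q - ((0 : ℂ), (0 : ℂ))‖ ≤ 2 := hn.trans (max_le le_rfl (by linarith))
      calc ‖q - ((0 : ℂ), (0 : ℂ))‖ ^ α ≤ (2 : ℝ) ^ α := Real.rpow_le_rpow (norm_nonneg _) h5 hα.le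
        _ ≤ (2 : ℝ) ^ (1 : ℝ) := Real.rpow_le_rpow_of_exponent_le (by norm_num) hα1
        _ = 2 := Real.rpow_one 2
    have h6 : |u q - u (0, 0)| ≤ 2 * C0 := by
      refine h3.trans ?_
      nlinarith
    rw [h1, hc, Real.log_exp]
    have e : -(D * u (0, 0)) + Real.log (‖F q 0‖ ^ 2 + ‖F q 1‖ ^ 2) / 2 =
        (Real.log (‖F q 0‖ ^ 2 + ‖F q 1‖ ^ 2) / 2 - D * u q) + D * (u q - u (0, 0)) := by ring
    rw [e]
    refine (abs_add_le _ _).trans ?_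
    rw [abs_mul, abs_of_nonneg (by linarith : (0 : ℝ) ≤ D)]
    have h7 : D * |u q - u (0, 0)| ≤ D * (2 * C0) := mul_le_mul_of_nonneg_left h6 (by linarith)
    nlinarith

/-! ### slices -/

theorem BND_slice2 {f : ℂ × ℂ → ℂ} {a b x v : ℂ} (c : ℂ) (hf : AnalyticAt ℂ f (a * x, b * v)) :
    HasDerivAt (fun y => c * f (a * y, b * v)) (c * (a * P2U.dx f (a * x, b * v))) x := by
  have h0 : HasDerivAt (fun y : ℂ => a * y) a x := by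
    simpa using (hasDerivAt_id x).const_mul a
  have h1 : HasDerivAt (fun y : ℂ => (a * y, b * v)) (a, (0 : ℂ)) x :=
    h0.prodMk (hasDerivAt_const x (b * v))
  have h2 := HasFDerivAt.comp_hasDerivAt (f := fun y : ℂ => (a * y, b * v)) x
    hf.differentiableAt.hasFDerivAt h1
  have e : fderiv ℂ f (a * x, b * v) (a, 0) = a * P2U.dx f (a * x, b * v) := by
    have e1 : ((a, 0) : ℂ × ℂ) = a • ((1 : ℂ), (0 : ℂ)) := by simp
    rw [e1, map_smul]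
    rfl
  rw [e] at h2
  exact h2.const_mul c

theorem BND_Wr {P Q : ℂ × ℂ → ℂ} {τ : ℝ} (hol : P2U.Hol P Q 4 τ) (c : ℂ) {a b x v : ℂ}
    (hp : (a * x, b * v) ∈ P2U.TB 4 τ) :
    Wr (fun y => c * P (a * y, b * v)) (fun y => c * Q (a * y, b * v)) x =
      c ^ 2 * a * P2U.cx P Q (a * x, b * v) := by
  unfold Wr
  rw [(BND_slice2 c (hol.hP _ hp)).deriv, (BND_slice2 c (hol.hQ _ hp)).deriv]
  unfold P2U.cx
  ring

theorem BND_sph {P Q : ℂ × ℂ → ℂ} {τ : ℝ} (hol : P2U.Hol P Q 4 τ) {c : ℝ} (hc : 0 < c) {a b x v : ℂ}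
    (hp : (a * x, b * v) ∈ P2U.TB 4 τ) :
    sph (fun y => (c : ℂ) * P (a * y, b * v)) (fun y => (c : ℂ) * Q (a * y, b * v)) x =
      Complex.normSq a * (‖P2U.cx P Q (a * x, b * v)‖ ^ 2 * P2U.om P Q (a * x, b * v)) := by
  unfold sph
  rw [BND_Wr hol _ hp]
  unfold P2U.om
  have h2 : 0 < ‖P (a * x, b * v)‖ ^ 2 + ‖Q (a * x, b * v)‖ ^ 2 := by
    rcases hol.ne _ hp with h | h
    · have := norm_pos_iff.2 h
      positivity
    · have := norm_pos_iff.2 h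
      positivity
  simp only [Complex.normSq_mul, map_pow, Complex.normSq_ofReal, Complex.normSq_eq_norm_sq (P _),
    Complex.normSq_eq_norm_sq (Q _), Complex.normSq_eq_norm_sq (P2U.cx _ _ _)]
  have e : c * c * ‖P (a * x, b * v)‖ ^ 2 + c * c * ‖Q (a * x, b * v)‖ ^ 2 =
      c ^ 2 * (‖P (a * x, b * v)‖ ^ 2 + ‖Q (a * x, b * v)‖ ^ 2) := by ring
  rw [e]
  field_simp

/-! ### sheets -/

theorem BND_sheet {F : ℂ × ℂ → E3} {τ s c : ℝ}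
    (hol : P2U.Hol (fun p => F p 0) (fun p => F p 1) 4 τ) (hs : 0 < s) (hst : s ≤ τ / 4) (hc : 0 < c)
    {x : ℂ} (hx : ‖((2 : ℝ) : ℂ) * x‖ < 1 / 2)
    (hU : P2U.Unf (fun p => F p 0) (fun p => F p 1) (s / 6) (((2 : ℝ) : ℂ) * x))
    (hcr : ¬ ∃ p ∈ P2U.TB 4 τ, F p 0 * F (((2 : ℝ) : ℂ) * x, 0) 1 = F p 1 * F (((2 : ℝ) : ℂ) * x, 0) 0 ∧
      P2U.cx (fun p => F p 0) (fun p => F p 1) p = 0 ∧ P2U.cv (fun p => F p 0) (fun p => F p 1) p = 0) :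
    ∃ X, Sht (fun p => BND_sc c 2 (s / 6) F p 0) (fun p => BND_sc c 2 (s / 6) F p 1) x X := by
  obtain ⟨Z, hZ⟩ := hU
  have hc1 : (c : ℂ) ≠ 0 := by exact_mod_cast hc.ne'
  have hmem : (((2 : ℝ) : ℂ) * x, (0 : ℂ)) ∈ P2U.TB 4 τ := by
    refine ⟨hx.trans (by norm_num), ?_⟩
    show ‖(0 : ℂ)‖ < τ
    rw [norm_zero]
    linarith
  have hsc : ∀ v ∈ ball (0 : ℂ) 1, ((s / 6 : ℝ) : ℂ) * v ∈ ball (0 : ℂ) (s / 6) := by
    intro v hv
    rw [mem_ball_zero_iff] at hv ⊢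
    rw [norm_mul, Complex.norm_real, Real.norm_of_nonneg (by positivity)]
    have : 0 < s / 6 := by positivity
    nlinarith
  have htwo : ∀ w : ℂ, ((2 : ℝ) : ℂ) * (Z w / 2) = Z w := by
    intro w
    push_cast
    ring
  refine ⟨fun v => Z (((s / 6 : ℝ) : ℂ) * v) / 2, ?_, ?_, ?_⟩
  · apply DifferentiableOn.div_const
    exact hZ.an.comp (by fun_prop) hsc
  · show Z (((s / 6 : ℝ) : ℂ) * 0) / 2 = x
    rw [mul_zero, hZ.ini]
    push_cast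
    ring
  · intro v hv
    have hw := hsc v hv
    set w : ℂ := ((s / 6 : ℝ) : ℂ) * v with hwdef
    have hlt := hZ.lt w hw
    have hmw : (Z w, w) ∈ P2U.TB 4 τ := by
      refine ⟨hlt.trans (by norm_num), ?_⟩
      rw [mem_ball_zero_iff] at hw
      show ‖w‖ < τ
      linarith
    refine ⟨?_, ?_, ?_⟩
    · rw [mem_ball_zero_iff, norm_div, Complex.norm_ofNat]
      linarith
    · show ((c : ℂ) * F (((2 : ℝ) : ℂ) * (Z w / 2), w) 0) *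
          ((c : ℂ) * F (((2 : ℝ) : ℂ) * x, ((s / 6 : ℝ) : ℂ) * 0) 1) =
        ((c : ℂ) * F (((2 : ℝ) : ℂ) * (Z w / 2), w) 1) *
          ((c : ℂ) * F (((2 : ℝ) : ℂ) * x, ((s / 6 : ℝ) : ℂ) * 0) 0)
      rw [htwo, mul_zero]
      have h := hZ.eq w hw
      linear_combination (c : ℂ) ^ 2 * h
    · intro h0
      apply hcr
      have h2 := BND_Wr hol (c : ℂ) (a := ((2 : ℝ) : ℂ)) (b := ((s / 6 : ℝ) : ℂ)) (x := Z w / 2)
        (v := v) (by rw [htwo]; exact hmw)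
      rw [htwo] at h2
      have h3 : Wr (fun y => (c : ℂ) * F (((2 : ℝ) : ℂ) * y, ((s / 6 : ℝ) : ℂ) * v) 0)
        (fun y => (c : ℂ) * F (((2 : ℝ) : ℂ) * y, ((s / 6 : ℝ) : ℂ) * v) 1) (Z w / 2) = 0 := h0
      have h1 : (c : ℂ) ^ 2 * ((2 : ℝ) : ℂ) * P2U.cx (fun p => F p 0) (fun p => F p 1) (Z w, w) = 0 :=
        h2.symm.trans h3
      have h4 : P2U.cx (fun p => F p 0) (fun p => F p 1) (Z w, w) = 0 := by
        have h5 : (c : ℂ) ^ 2 * ((2 : ℝ) : ℂ) ≠ 0 := by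
          push_cast
          exact mul_ne_zero (pow_ne_zero 2 hc1) (by norm_num)
        exact (mul_eq_zero.1 h1).resolve_left h5
      have h6 := BND_br hol (by linarith : s / 6 ≤ τ) (hol.ne _ hmem) hZ.an
        (fun w hw => hZ.lt w hw) (fun w hw => hZ.eq w hw) hw
      rw [h4, zero_mul, zero_add] at h6
      exact ⟨(Z w, w), hmw, hZ.eq w hw, h4, h6⟩

end Pool.Agent.P2B
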