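import Pool.Agent.helper98.P2.BNDb

/-!
# p2:BND (MP_063734_an), measure of the exceptional points, areas, and the way back
-/

set_option autoImplicit false

open scoped ContDiff Topology ComplexConjugate ENNReal
open MeasureTheory Filter Set Metric

namespace Pool.Agent.P2B

open Pool.Agent.P2 Pool.Agent.P2I

theorem BND_prenull {N : Set ℂ} (hN : volume N = 0) :
    volume ((fun x : ℂ => ((2 : ℝ) : ℂ) * x) ⁻¹' N) = 0 := by
  have h := BND_cov1 2 (by norm_num) (fun _ => 1) N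
  rw [setLIntegral_one, setLIntegral_one, hN] at h
  rcases mul_eq_zero.1 h with h | h
  · exfalso
    rw [ENNReal.ofReal_eq_zero] at h
    norm_num at h
  · exact h

theorem BND_sphc (hBSL : BSL_stmt) {P Q : ℂ × ℂ → ℂ} {E : ℝ} (hnd : ND P Q E) :
    ContinuousOn (fun x : ℂ => sph (sl P 0) (sl Q 0) x) (ball (0 : ℂ) 1) := by
  have h3 := (hBSL P Q E hnd 0 (mem_ball_self one_pos)).2.2.2
  have h4 : ContinuousOn (fun x : ℂ => (x, (0 : ℂ))) (ball (0 : ℂ) 1) := by fun_prop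
  have h5 : MapsTo (fun x : ℂ => (x, (0 : ℂ))) (ball (0 : ℂ) 1) BI :=
    fun x hx => ⟨hx, mem_ball_self one_pos⟩
  exact ContinuousOn.comp (g := fun p : ℂ × ℂ => sph (sl P p.2) (sl Q p.2) p.1)
    (f := fun x : ℂ => (x, (0 : ℂ))) h3 h4 h5

/-- the exceptional points of the own level -/
theorem BND_meas (hUNUL : P2U.UNUL_stmt) (hUSNG : P2U.USNG_stmt) (hBSL : BSL_stmt) {F : ℂ × ℂ → E3}
    {τ s c κ E A B : ℝ} (hol : P2U.Hol (fun p => F p 0) (fun p => F p 1) 4 τ) (hs : 0 < s)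
    (hst : s ≤ τ / 4) (hc : 0 < c)
    (hnd : ND (fun p => BND_sc c 2 (s / 6) F p 0) (fun p => BND_sc c 2 (s / 6) F p 1) E)
    (h1 : ∫⁻ x0 in {x0 : ℂ | x0 ∈ ball (0 : ℂ) (1 / 2) ∧
      (∃ X : ℂ → ℂ, Sht (fun p => BND_sc c 2 (s / 6) F p 0) (fun p => BND_sc c 2 (s / 6) F p 1) x0 X) ∧
      ¬ ∃ Y : ℂ × ℂ → ℂ, Band (fun p => BND_sc c 2 (s / 6) F p 0) (fun p => BND_sc c 2 (s / 6) F p 1)
        (ball 0 1) (κ / 4) (1 / 4) x0 Y},
      ENNReal.ofReal (sph (sl (fun p => BND_sc c 2 (s / 6) F p 0) 0)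
        (sl (fun p => BND_sc c 2 (s / 6) F p 1) 0) x0) ≤ ENNReal.ofReal A)
    (h2 : ∫⁻ x in P2U.NN (fun p => F p 0) (fun p => F p 1) (s / 6) ∩ ball 0 (2 / 5),
      ENNReal.ofReal (‖P2U.cx (fun p => F p 0) (fun p => F p 1) (x, 0)‖ ^ 2 *
        P2U.om (fun p => F p 0) (fun p => F p 1) (x, 0)) ≤ ENNReal.ofReal B)
    (hA : 0 ≤ A) (hB : 0 ≤ B) :
    ∫⁻ x0 in {x0 : ℂ | x0 ∈ ball (0 : ℂ) (1 / 5) ∧
      ¬ ∃ Y : ℂ × ℂ → ℂ, Band (fun p => BND_sc c 2 (s / 6) F p 0) (fun p => BND_sc c 2 (s / 6) F p 1)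
        (ball 0 1) (κ / 4) (1 / 4) x0 Y},
      ENNReal.ofReal (sph (sl (fun p => BND_sc c 2 (s / 6) F p 0) 0)
        (sl (fun p => BND_sc c 2 (s / 6) F p 1) 0) x0) ≤ ENNReal.ofReal (A + B) := by
  set P' : ℂ × ℂ → ℂ := fun p => BND_sc c 2 (s / 6) F p 0 with hP'
  set Q' : ℂ × ℂ → ℂ := fun p => BND_sc c 2 (s / 6) F p 1 with hQ'
  set f : ℂ → ℝ≥0∞ := fun x0 => ENNReal.ofReal (sph (sl P' 0) (sl Q' 0) x0) with hf
  have hτ : 0 < τ := by linarith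
  set S1 : Set ℂ := {x0 : ℂ | x0 ∈ ball (0 : ℂ) (1 / 2) ∧ (∃ X : ℂ → ℂ, Sht P' Q' x0 X) ∧
      ¬ ∃ Y : ℂ × ℂ → ℂ, Band P' Q' (ball 0 1) (κ / 4) (1 / 4) x0 Y} with hS1
  set M : Set ℂ := P2U.NN (fun p => F p 0) (fun p => F p 1) (s / 6) ∩ ball 0 (2 / 5) with hM
  set S2 : Set ℂ := (fun x : ℂ => ((2 : ℝ) : ℂ) * x) ⁻¹' M with hS2
  set K : Set ℂ := {x : ℂ | ‖x‖ < 1 / 2 ∧ P2U.cx (fun p => F p 0) (fun p => F p 1) (x, 0) ≠ 0 ∧
    ∃ p ∈ P2U.TB 4 τ, (fun p => F p 0) p * (fun p => F p 1) (x, 0) = (fun p => F p 1) p * (fun p => F p 0) (x, 0) ∧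
      P2U.cx (fun p => F p 0) (fun p => F p 1) p = 0 ∧ P2U.cv (fun p => F p 0) (fun p => F p 1) p = 0} with hK
  have hK0 : volume K = 0 := BND_crit hUNUL hUSNG hτ hol
  set S3 : Set ℂ := (fun x : ℂ => ((2 : ℝ) : ℂ) * x) ⁻¹' K with hS3
  have hS30 : volume S3 = 0 := BND_prenull hK0
  have hcont : ContinuousOn (fun x : ℂ => sph (sl P' 0) (sl Q' 0) x) (ball (0 : ℂ) 1) :=
    BND_sphc hBSL hnd
  set S4 : Set ℂ := ball (0 : ℂ) 1 \ (ball (0 : ℂ) 1 ∩ (fun x : ℂ => sph (sl P' 0) (sl Q' 0) x) ⁻¹' {0}ᶜ)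
    with hS4
  have hS4m : MeasurableSet S4 := measurableSet_ball.diff
    (hcont.isOpen_inter_preimage isOpen_ball isOpen_compl_singleton).measurableSet
  have hsph : ∀ x : ℂ, ‖x‖ < 1 / 2 → sph (sl P' 0) (sl Q' 0) x =
      4 * (‖P2U.cx (fun p => F p 0) (fun p => F p 1) (((2 : ℝ) : ℂ) * x, 0)‖ ^ 2 *
        P2U.om (fun p => F p 0) (fun p => F p 1) (((2 : ℝ) : ℂ) * x, 0)) := by
    intro x hx
    have hm : (((2 : ℝ) : ℂ) * x, ((s / 6 : ℝ) : ℂ) * 0) ∈ P2U.TB 4 τ :=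
      (BND_mem hs hst (p := (x, 0)) ⟨by rw [mem_ball_zero_iff]; show ‖x‖ < 1; linarith,
        mem_ball_self one_pos⟩).1
    have h3 := BND_sph hol hc hm
    have e : Complex.normSq ((2 : ℝ) : ℂ) = 4 := by
      rw [Complex.normSq_ofReal]
      norm_num
    rw [e, mul_zero] at h3
    refine Eq.trans ?_ h3
    show sph (fun y => (c : ℂ) * F (((2 : ℝ) : ℂ) * y, ((s / 6 : ℝ) : ℂ) * 0) 0)
      (fun y => (c : ℂ) * F (((2 : ℝ) : ℂ) * y, ((s / 6 : ℝ) : ℂ) * 0) 1) x = _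
    rw [mul_zero]
  have hsub : {x0 : ℂ | x0 ∈ ball (0 : ℂ) (1 / 5) ∧
      ¬ ∃ Y : ℂ × ℂ → ℂ, Band P' Q' (ball 0 1) (κ / 4) (1 / 4) x0 Y} ⊆ S1 ∪ (S2 ∪ (S3 ∪ S4)) := by
    rintro x ⟨hx, hY⟩
    rw [mem_ball_zero_iff] at hx
    have hx2 : ‖((2 : ℝ) : ℂ) * x‖ = 2 * ‖x‖ := by
      rw [norm_mul, Complex.norm_real, Real.norm_of_nonneg (by norm_num)]
    by_cases hcx : P2U.cx (fun p => F p 0) (fun p => F p 1) (((2 : ℝ) : ℂ) * x, 0) = 0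
    · right; right; right
      refine ⟨by rw [mem_ball_zero_iff]; linarith, ?_⟩
      rintro ⟨-, h3⟩
      apply h3
      show sph (sl P' 0) (sl Q' 0) x = 0
      rw [hsph x (by linarith), hcx]
      simp
    · by_cases hun : P2U.Unf (fun p => F p 0) (fun p => F p 1) (s / 6) (((2 : ℝ) : ℂ) * x)
      · by_cases hcr : ∃ p ∈ P2U.TB 4 τ, F p 0 * F (((2 : ℝ) : ℂ) * x, 0) 1 =
          F p 1 * F (((2 : ℝ) : ℂ) * x, 0) 0 ∧
          P2U.cx (fun p => F p 0) (fun p => F p 1) p = 0 ∧ P2U.cv (fun p => F p 0) (fun p => F p 1) p = 0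
        · right; right; left
          exact ⟨by rw [hx2]; linarith, hcx, hcr⟩
        · left
          refine ⟨by rw [mem_ball_zero_iff]; linarith, ?_, hY⟩
          exact BND_sheet hol hs hst hc (by rw [hx2]; linarith) hun hcr
      · right; left
        refine ⟨⟨by rw [hx2]; linarith, hcx, hun⟩, ?_⟩
        rw [mem_ball_zero_iff, hx2]
        linarith
  have hI2 : ∫⁻ x in S2, f x ≤ ENNReal.ofReal B := by
    refine le_trans ?_ h2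
    rw [← BND_cov1 2 (by norm_num) (fun x => ENNReal.ofReal (‖P2U.cx (fun p => F p 0) (fun p => F p 1) (x, 0)‖ ^ 2 *
        P2U.om (fun p => F p 0) (fun p => F p 1) (x, 0))) M]
    have hmeas : (2 : ℝ) ^ 2 = 4 := by norm_num
    rw [hmeas, ← lintegral_const_mul' _ _ ENNReal.ofReal_ne_top]
    refine le_trans (le_of_eq (b := ∫⁻ x in S2, f x) rfl) ?_
    have hball : MeasurableSet (ball (0 : ℂ) (1 / 5)) := measurableSet_ball
    have hle : ∀ x ∈ ball (0 : ℂ) (1 / 5), f x ≤ ENNReal.ofReal 4 *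
        ENNReal.ofReal (‖P2U.cx (fun p => F p 0) (fun p => F p 1) (((2 : ℝ) : ℂ) * x, 0)‖ ^ 2 *
        P2U.om (fun p => F p 0) (fun p => F p 1) (((2 : ℝ) : ℂ) * x, 0)) := by
      intro x hx
      rw [mem_ball_zero_iff] at hx
      rw [← ENNReal.ofReal_mul (by norm_num), ← hsph x (by linarith)]
    have hS2b : S2 ⊆ ball (0 : ℂ) (1 / 5) := by
      rintro x ⟨-, hx⟩
      rw [mem_ball_zero_iff] at hx ⊢
      rw [norm_mul, Complex.norm_real, Real.norm_of_nonneg (by norm_num)] at hx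
      linarith
    have hr : ∀ g : ℂ → ℝ≥0∞, ∫⁻ x in S2, g x = ∫⁻ x in ball (0 : ℂ) (1 / 5), g x ∂(volume.restrict S2) := by
      intro g
      rw [Measure.restrict_restrict hball, inter_eq_right.2 hS2b]
    rw [hr, hr]
    exact setLIntegral_mono' hball hle
  have hI3 : ∫⁻ x in S3, f x = 0 := setLIntegral_measure_zero _ _ hS30
  have hI4 : ∫⁻ x in S4, f x = 0 := by
    rw [setLIntegral_congr_fun hS4m (g := fun _ => 0)]
    · simp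
    · rintro x ⟨hx, h3⟩
      show ENNReal.ofReal (sph (sl P' 0) (sl Q' 0) x) = 0
      have h4 : sph (sl P' 0) (sl Q' 0) x = 0 := by
        by_contra h5
        exact h3 ⟨hx, h5⟩
      rw [h4, ENNReal.ofReal_zero]
  calc ∫⁻ x0 in {x0 : ℂ | x0 ∈ ball (0 : ℂ) (1 / 5) ∧
      ¬ ∃ Y : ℂ × ℂ → ℂ, Band P' Q' (ball 0 1) (κ / 4) (1 / 4) x0 Y}, f x0 ≤
        ∫⁻ x0 in S1 ∪ (S2 ∪ (S3 ∪ S4)), f x0 := lintegral_mono_set hsub
    _ ≤ (∫⁻ x0 in S1, f x0) + ∫⁻ x0 in S2 ∪ (S3 ∪ S4), f x0 := lintegral_union_le _ _ _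
    _ ≤ (∫⁻ x0 in S1, f x0) + ((∫⁻ x0 in S2, f x0) + ∫⁻ x0 in S3 ∪ S4, f x0) := by
        gcongr
        exact lintegral_union_le _ _ _
    _ ≤ (∫⁻ x0 in S1, f x0) + ((∫⁻ x0 in S2, f x0) + ((∫⁻ x0 in S3, f x0) + ∫⁻ x0 in S4, f x0)) := by
        gcongr
        exact lintegral_union_le _ _ _
    _ ≤ ENNReal.ofReal A + ENNReal.ofReal B := by
        rw [hI3, hI4, add_zero, add_zero]
        exact add_le_add h1 hI2
    _ = ENNReal.ofReal (A + B) := (ENNReal.ofReal_add hA hB).symm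

/-! ### areas -/

theorem BND_nq : ContDiff ℝ ∞ (fun Z : E3 => nq Z) := by
  unfold nq
  apply ContDiff.sum
  intro i _
  have e : (fun Z : E3 => Complex.normSq (Z i)) = fun Z : E3 => (Z i).re * (Z i).re + (Z i).im * (Z i).im := by
    funext Z
    exact Complex.normSq_apply _
  rw [e]
  have h1 : ContDiff ℝ ∞ (fun Z : E3 => Z i) := contDiff_apply ℝ ℂ i
  have h2 : ContDiff ℝ ∞ (fun Z : E3 => (Z i).re) := Complex.reCLM.contDiff.comp h1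
  have h3 : ContDiff ℝ ∞ (fun Z : E3 => (Z i).im) := Complex.imCLM.contDiff.comp h1
  exact (h2.mul h2).add (h3.mul h3)

theorem BND_nqsc (c : ℝ) (Z : E3) : nq ((c : ℂ) • Z) = c ^ 2 * nq Z := by
  unfold nq
  rw [Finset.mul_sum]
  refine Finset.sum_congr rfl fun i _ => ?_
  rw [Pi.smul_apply, smul_eq_mul, Complex.normSq_mul, Complex.normSq_ofReal]
  ring

theorem BND_pqnq (Z : E3) : pq Z ≤ nq Z := by
  unfold pq nq
  rw [Fin.sum_univ_three]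
  have := Complex.normSq_nonneg (Z 2)
  linarith

theorem BND_ard (hBMP : BMP_stmt) {Ω : Set E3} {G : E3 → ℝ} {C0 α : ℝ} {F : ℂ × ℂ → E3} {τ s c : ℝ}
    (hCD : CD Ω G C0 α) (hF : ∀ p ∈ P2U.TB 4 τ, F p ∈ Ω) (hd : DifferentiableOn ℂ F (P2U.TB 4 τ))
    (hs : 0 < s) (hst : s ≤ τ / 4) (hc : 0 < c) {p : ℂ × ℂ} (hp : p ∈ BI) :
    ard G (BND_sc c 2 (s / 6) F) p =
      (s / 3) ^ 2 * ard G F (((2 : ℝ) : ℂ) * p.1, ((s / 6 : ℝ) : ℂ) * p.2) := by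
  have hc1 : (c : ℂ) ≠ 0 := by exact_mod_cast hc.ne'
  have hBI : IsOpen (BI : Set (ℂ × ℂ)) := isOpen_ball.prod isOpen_ball
  have hm := (BND_mem hs hst hp).1
  have hsm : ContDiffAt ℝ 2 F (BND_ps 2 (s / 6) p) :=
    ((OSG (BND_TBopen 4 τ) hd).contDiffAt ((BND_TBopen 4 τ).mem_nhds hm)).of_le
      (WithTop.coe_le_coe.2 (le_top : (2 : ℕ∞) ≤ ⊤))
  have hA : ContDiffAt ℝ 2 (fun q => G (F q)) (BND_ps 2 (s / 6) p) := by
    have h1 : ContDiffAt ℝ 2 G (F (BND_ps 2 (s / 6) p)) :=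
      (hCD.sm.contDiffAt (hCD.op.mem_nhds (hF _ hm))).of_le (WithTop.coe_le_coe.2 (le_top : (2 : ℕ∞) ≤ ⊤))
    exact h1.comp _ hsm
  have hpos : ∀ q ∈ P2U.TB 4 τ, 0 < nq (F q) := fun q hq =>
    (hCD.nn _ (hF q hq)).1.trans_le (BND_pqnq _)
  have hB : ContDiffAt ℝ 2 (fun q => (1 / 2) * Real.log (nq (F q))) (BND_ps 2 (s / 6) p) := by
    have h1 : ContDiffAt ℝ 2 (fun q => nq (F q)) (BND_ps 2 (s / 6) p) :=
      (BND_nq.contDiffAt.of_le (WithTop.coe_le_coe.2 (le_top : (2 : ℕ∞) ≤ ⊤))).comp _ hsm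
    exact contDiffAt_const.mul (h1.log (hpos _ hm).ne')
  have h1 := hBMP.1 univ (BND_ps 2 (s / 6)) (fun q => G (F q)) (fun q => (1 / 2) * Real.log (nq (F q))) p
    isOpen_univ (BND_ps_diff 2 (s / 6)).differentiableOn (mem_univ p) hA hB
  have h2 : ard G (BND_sc c 2 (s / 6) F) p =
      MA (fun q => G (F (BND_ps 2 (s / 6) q))) (fun q => (1 / 2) * Real.log (nq (F (BND_ps 2 (s / 6) q)))) p := by
    unfold ard
    apply BND_MA_congr (k := Real.log c) (l := Real.log c)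
    · filter_upwards [hBI.mem_nhds hp] with q hq
      have h3 := hCD.hg _ (hF _ (BND_mem hs hst hq).1) (c : ℂ) hc1
      rw [Complex.norm_real, Real.norm_of_nonneg hc.le] at h3
      exact h3
    · filter_upwards [hBI.mem_nhds hp] with q hq
      have h3 : nq (BND_sc c 2 (s / 6) F q) = c ^ 2 * nq (F (BND_ps 2 (s / 6) q)) := BND_nqsc c _
      have h4 : 0 < nq (F (BND_ps 2 (s / 6) q)) := hpos _ (BND_mem hs hst hq).1
      show (1 / 2) * Real.log (nq (BND_sc c 2 (s / 6) F q)) =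
        (1 / 2) * Real.log (nq (F (BND_ps 2 (s / 6) q))) + Real.log c
      rw [h3, Real.log_mul (by positivity) h4.ne', Real.log_pow]
      push_cast
      ring
  have h5 : HasFDerivAt (BND_ps 2 (s / 6))
      ((((2 : ℝ) : ℂ) • ContinuousLinearMap.fst ℂ ℂ ℂ).prod
        (((s / 6 : ℝ) : ℂ) • ContinuousLinearMap.snd ℂ ℂ ℂ)) p :=
    (hasFDerivAt_fst.const_mul _).prodMk (hasFDerivAt_snd.const_mul _)
  rw [h2, h1, h5.fderiv]
  have e : Complex.normSq (((((2 : ℝ) : ℂ) • ContinuousLinearMap.fst ℂ ℂ ℂ).prod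
        (((s / 6 : ℝ) : ℂ) • ContinuousLinearMap.snd ℂ ℂ ℂ) (1, 0)).1 *
      ((((2 : ℝ) : ℂ) • ContinuousLinearMap.fst ℂ ℂ ℂ).prod
        (((s / 6 : ℝ) : ℂ) • ContinuousLinearMap.snd ℂ ℂ ℂ) (0, 1)).2 -
      ((((2 : ℝ) : ℂ) • ContinuousLinearMap.fst ℂ ℂ ℂ).prod
        (((s / 6 : ℝ) : ℂ) • ContinuousLinearMap.snd ℂ ℂ ℂ) (0, 1)).1 *
      ((((2 : ℝ) : ℂ) • ContinuousLinearMap.fst ℂ ℂ ℂ).prod
        (((s / 6 : ℝ) : ℂ) • ContinuousLinearMap.snd ℂ ℂ ℂ) (1, 0)).2) = (s / 3) ^ 2 := by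
    have e1 : (((((2 : ℝ) : ℂ) • ContinuousLinearMap.fst ℂ ℂ ℂ).prod
        (((s / 6 : ℝ) : ℂ) • ContinuousLinearMap.snd ℂ ℂ ℂ) (1, 0)).1 *
      ((((2 : ℝ) : ℂ) • ContinuousLinearMap.fst ℂ ℂ ℂ).prod
        (((s / 6 : ℝ) : ℂ) • ContinuousLinearMap.snd ℂ ℂ ℂ) (0, 1)).2 -
      ((((2 : ℝ) : ℂ) • ContinuousLinearMap.fst ℂ ℂ ℂ).prod
        (((s / 6 : ℝ) : ℂ) • ContinuousLinearMap.snd ℂ ℂ ℂ) (0, 1)).1 *
      ((((2 : ℝ) : ℂ) • ContinuousLinearMap.fst ℂ ℂ ℂ).prod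
        (((s / 6 : ℝ) : ℂ) • ContinuousLinearMap.snd ℂ ℂ ℂ) (1, 0)).2) = ((s / 3 : ℝ) : ℂ) := by
      simp
      ring
    rw [e1, Complex.normSq_ofReal]
    ring
  rw [e]
  rfl

/-- the area -/
theorem BND_area (hBMP : BMP_stmt) {Ω : Set E3} {G : E3 → ℝ} {C0 α : ℝ} {F : ℂ × ℂ → E3} {τ s c r A : ℝ}
    (hCD : CD Ω G C0 α) (hF : ∀ p ∈ P2U.TB 4 τ, F p ∈ Ω) (hd : DifferentiableOn ℂ F (P2U.TB 4 τ))
    (hs : 0 < s) (hst : s ≤ τ / 4) (hc : 0 < c) (hr : r ≤ 1)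
    (hA : ∫⁻ p in P2U.TB 1 s, ENNReal.ofReal (ard G F p) ≤ ENNReal.ofReal A) :
    ∫⁻ p in ball (0 : ℂ) (1 / 2) ×ˢ ball (0 : ℂ) r, ENNReal.ofReal (ard G (BND_sc c 2 (s / 6) F) p) ≤
      ENNReal.ofReal A := by
  refine le_trans ?_ hA
  rw [← BND_cov2 2 (s / 6) (by norm_num) (by positivity) (fun p => ENNReal.ofReal (ard G F p)) (P2U.TB 1 s),
    ← lintegral_const_mul' _ _ ENNReal.ofReal_ne_top]
  have hsub : ball (0 : ℂ) (1 / 2) ×ˢ ball (0 : ℂ) r ⊆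
      (fun p : ℂ × ℂ => (((2 : ℝ) : ℂ) * p.1, ((s / 6 : ℝ) : ℂ) * p.2)) ⁻¹' P2U.TB 1 s := by
    rintro p ⟨h1, h2⟩
    rw [mem_ball_zero_iff] at h1 h2
    refine ⟨?_, ?_⟩
    · show ‖((2 : ℝ) : ℂ) * p.1‖ < 1
      rw [norm_mul, Complex.norm_real, Real.norm_of_nonneg (by norm_num)]
      linarith
    · show ‖((s / 6 : ℝ) : ℂ) * p.2‖ < s
      rw [norm_mul, Complex.norm_real, Real.norm_of_nonneg (by positivity)]
      have h3 : s / 6 * ‖p.2‖ ≤ s / 6 * 1 := mul_le_mul_of_nonneg_left (by linarith) (by positivity)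
      linarith
  refine le_trans ?_ (lintegral_mono_set hsub)
  refine setLIntegral_mono' (measurableSet_ball.prod measurableSet_ball) ?_
  rintro p ⟨h1, h2⟩
  have hp : p ∈ BI := ⟨ball_subset_ball (by norm_num) h1, ball_subset_ball hr h2⟩
  rw [BND_ard hBMP hCD hF hd hs hst hc hp, ENNReal.ofReal_mul (by positivity)]
  have e : ((2 : ℝ) * (s / 6)) ^ 2 = (s / 3) ^ 2 := by ring
  rw [e]

/-! ### the way back -/

theorem BND_nr {F : ℂ × ℂ → E3} {s c : ℝ} (hc : 0 < c) (x : ℂ) :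
    nr (BND_sc c 2 (s / 6) F) (x / 2) = c * nr F x := by
  unfold nr
  have e : BND_sc c 2 (s / 6) F (x / 2, 0) = (c : ℂ) • F (x, 0) := by
    unfold BND_sc
    have e1 : ((2 : ℝ) : ℂ) * (x / 2, (0 : ℂ)).1 = x := by
      show ((2 : ℝ) : ℂ) * (x / 2) = x
      push_cast
      ring
    rw [e1]
    simp
  have e2 : pq ((c : ℂ) • F (x, 0)) = c ^ 2 * pq (F (x, 0)) := by
    unfold pq
    rw [Pi.smul_apply, Pi.smul_apply, smul_eq_mul, smul_eq_mul, Complex.normSq_mul, Complex.normSq_mul,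
      Complex.normSq_ofReal]
    ring
  rw [e, e2, Real.sqrt_mul (by positivity), Real.sqrt_sq hc.le]

theorem BND_ret {F : ℂ × ℂ → E3} {s c κ1 r1 r2 σ : ℝ} (hs : 0 < s) (hc : 0 < c)
    (hr : 6 / s * r2 ≤ r1) {x : ℂ} {Y' : ℂ × ℂ → ℂ}
    (hB : Band (fun p => BND_sc c 2 (s / 6) F p 0) (fun p => BND_sc c 2 (s / 6) F p 1) (ball 0 (1 / 2))
      κ1 r1 (x / 2) Y')
    (hz : ∀ t ∈ ball (0 : ℂ) κ1, ∀ v ∈ ball (0 : ℂ) r1,
      ‖zb (BND_sc c 2 (s / 6) F) (x / 2) Y' (t, v) - zb (BND_sc c 2 (s / 6) F) (x / 2) Y' (t, 0)‖ ≤ σ) :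
    ∃ Y : ℂ × ℂ → ℂ, Band (fun p => F p 0) (fun p => F p 1) (ball 0 1) κ1 r2 x Y ∧
      ∀ t ∈ ball (0 : ℂ) κ1, ∀ v ∈ ball (0 : ℂ) r2, ‖zb F x Y (t, v) - zb F x Y (t, 0)‖ ≤ σ := by
  obtain ⟨hd, h0, hY⟩ := hB
  have hc1 : (c : ℂ) ≠ 0 := by exact_mod_cast hc.ne'
  have hs1 : (s : ℂ) ≠ 0 := by exact_mod_cast hs.ne'
  have hsc : ∀ v ∈ ball (0 : ℂ) r2, ((6 / s : ℝ) : ℂ) * v ∈ ball (0 : ℂ) r1 := by
    intro v hv
    rw [mem_ball_zero_iff] at hv ⊢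
    rw [norm_mul, Complex.norm_real, Real.norm_of_nonneg (by positivity)]
    have h1 : 0 < 6 / s := by positivity
    exact (mul_lt_mul_of_pos_left hv h1).trans_le hr
  have hv6 : ∀ v : ℂ, ((s / 6 : ℝ) : ℂ) * (((6 / s : ℝ) : ℂ) * v) = v := by
    intro v
    push_cast
    field_simp
  have hx2 : ((2 : ℝ) : ℂ) * (x / 2) = x := by
    push_cast
    ring
  -- values of the rescaled map
  have hval : ∀ (w v : ℂ) (i : Fin 3), BND_sc c 2 (s / 6) F (w, ((6 / s : ℝ) : ℂ) * v) i =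
      (c : ℂ) * F (((2 : ℝ) : ℂ) * w, v) i := by
    intro w v i
    rw [BND_sc_app]
    show (c : ℂ) * F (((2 : ℝ) : ℂ) * w, ((s / 6 : ℝ) : ℂ) * (((6 / s : ℝ) : ℂ) * v)) i = _
    rw [hv6]
  have hval0 : ∀ i : Fin 3, BND_sc c 2 (s / 6) F (x / 2, 0) i = (c : ℂ) * F (x, 0) i := by
    intro i
    have h := hval (x / 2) 0 i
    rw [mul_zero, hx2] at h
    exact h
  set Y : ℂ × ℂ → ℂ := fun p => ((2 : ℝ) : ℂ) * Y' (p.1, ((6 / s : ℝ) : ℂ) * p.2) with hYdef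
  have hzb : ∀ t v : ℂ, zb F x Y (t, v) = zb (BND_sc c 2 (s / 6) F) (x / 2) Y' (t, ((6 / s : ℝ) : ℂ) * v) := by
    intro t v
    unfold zb
    rw [BND_nr hc]
    show F (((2 : ℝ) : ℂ) * Y' (t, ((6 / s : ℝ) : ℂ) * v), v) 2 * (nr F x : ℂ) /
        (F (((2 : ℝ) : ℂ) * Y' (t, ((6 / s : ℝ) : ℂ) * v), v) 0 * conj (F (x, 0) 0) +
          F (((2 : ℝ) : ℂ) * Y' (t, ((6 / s : ℝ) : ℂ) * v), v) 1 * conj (F (x, 0) 1)) =
      BND_sc c 2 (s / 6) F (Y' (t, ((6 / s : ℝ) : ℂ) * v), ((6 / s : ℝ) : ℂ) * v) 2 * ((c * nr F x : ℝ) : ℂ) /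
        (BND_sc c 2 (s / 6) F (Y' (t, ((6 / s : ℝ) : ℂ) * v), ((6 / s : ℝ) : ℂ) * v) 0 *
            conj (BND_sc c 2 (s / 6) F (x / 2, 0) 0) +
          BND_sc c 2 (s / 6) F (Y' (t, ((6 / s : ℝ) : ℂ) * v), ((6 / s : ℝ) : ℂ) * v) 1 *
            conj (BND_sc c 2 (s / 6) F (x / 2, 0) 1))
    rw [hval, hval, hval, hval0, hval0, map_mul, map_mul, Complex.conj_ofReal]
    push_cast
    have e : ∀ a b d : ℂ, (c : ℂ) * a * ((c : ℂ) * b) / d = ((c : ℂ) ^ 2) * (a * b) / d := by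
      intro a b d
      ring
    rw [e]
    have e2 : ∀ a b a' b' : ℂ, (c : ℂ) * a * ((c : ℂ) * a') + (c : ℂ) * b * ((c : ℂ) * b') =
        (c : ℂ) ^ 2 * (a * a' + b * b') := by
      intro a b a' b'
      ring
    rw [e2, mul_div_mul_left _ _ (pow_ne_zero 2 hc1)]
  refine ⟨Y, ⟨?_, ?_, ?_⟩, ?_⟩
  · have h1 : DifferentiableOn ℂ (fun p : ℂ × ℂ => Y' (p.1, ((6 / s : ℝ) : ℂ) * p.2))
        (ball (0 : ℂ) κ1 ×ˢ ball (0 : ℂ) r2) :=
      hd.comp (differentiable_fst.prodMk (differentiable_snd.const_mul _)).differentiableOn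
        (fun p hp => ⟨hp.1, hsc _ hp.2⟩)
    exact h1.const_mul _
  · show ((2 : ℝ) : ℂ) * Y' (0, ((6 / s : ℝ) : ℂ) * 0) = x
    rw [mul_zero, h0, hx2]
  · intro t ht v hv
    obtain ⟨h1, h2⟩ := hY t ht _ (hsc v hv)
    refine ⟨?_, ?_⟩
    · rw [mem_ball_zero_iff] at h1 ⊢
      show ‖((2 : ℝ) : ℂ) * Y' (t, ((6 / s : ℝ) : ℂ) * v)‖ < 1
      rw [norm_mul, Complex.norm_real, Real.norm_of_nonneg (by norm_num)]
      linarith
    · show F (((2 : ℝ) : ℂ) * Y' (t, ((6 / s : ℝ) : ℂ) * v), v) 0 * (F (x, 0) 1 + t * conj (F (x, 0) 0)) =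
        F (((2 : ℝ) : ℂ) * Y' (t, ((6 / s : ℝ) : ℂ) * v), v) 1 * (F (x, 0) 0 - t * conj (F (x, 0) 1))
      have h3 : BND_sc c 2 (s / 6) F (Y' (t, ((6 / s : ℝ) : ℂ) * v), ((6 / s : ℝ) : ℂ) * v) 0 *
          (BND_sc c 2 (s / 6) F (x / 2, 0) 1 + t * conj (BND_sc c 2 (s / 6) F (x / 2, 0) 0)) =
        BND_sc c 2 (s / 6) F (Y' (t, ((6 / s : ℝ) : ℂ) * v), ((6 / s : ℝ) : ℂ) * v) 1 *
          (BND_sc c 2 (s / 6) F (x / 2, 0) 0 - t * conj (BND_sc c 2 (s / 6) F (x / 2, 0) 1)) := h2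
      rw [hval, hval, hval0, hval0, map_mul, map_mul, Complex.conj_ofReal] at h3
      apply mul_left_cancel₀ (pow_ne_zero 2 hc1)
      linear_combination h3
  · intro t ht v hv
    rw [hzb, hzb, mul_zero]
    exact hz t ht _ (hsc v hv)

/-! ### mass -/

theorem BND_mass (hCH1 : CH1_stmt) {V V' : ℂ → ℝ} {k : ℝ} (hV : ContDiffOn ℝ ∞ V (ball 0 2))
    (h : ∀ x ∈ ball (0 : ℂ) 1, V' x = V (((2 : ℝ) : ℂ) * x) + k)
    (hpos : ∀ x ∈ ball (0 : ℂ) 1, 0 ≤ lap V' x) (hV' : ContDiffOn ℝ ∞ V' (ball 0 1)) (B1 B2 : Set ℂ)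
    (hm1 : MeasurableSet B1) (hm2 : MeasurableSet B2) :
    ∫ x in {x : ℂ | x / 2 ∈ B1 ∪ B2} ∩ ball 0 (1 / 3), lap V x ≤
      (∫ x in B1 ∩ ball 0 (1 / 6), lap V' x) + ∫ x in B2 ∩ ball 0 (1 / 6), lap V' x := by
  have hlap : ∀ x ∈ ball (0 : ℂ) 1, lap V' x = 4 * lap V (((2 : ℝ) : ℂ) * x) := by
    intro x hx
    have h1 : lap V' x = lap (fun y => V (((2 : ℝ) : ℂ) * y)) x := by
      apply BND_lap_congr (k := k)
      filter_upwards [isOpen_ball.mem_nhds hx] with q hq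
      exact h q hq
    have hx2 : ((2 : ℝ) : ℂ) * x ∈ ball (0 : ℂ) 2 := by
      rw [mem_ball_zero_iff] at hx ⊢
      rw [norm_mul, Complex.norm_real, Real.norm_of_nonneg (by norm_num)]
      linarith
    have h2 := hCH1.1 univ (fun y => ((2 : ℝ) : ℂ) * y) V x isOpen_univ (by fun_prop) (mem_univ x)
      ((hV.contDiffAt (isOpen_ball.mem_nhds hx2)).of_le (WithTop.coe_le_coe.2 (le_top : (2 : ℕ∞) ≤ ⊤)))
    have h3 : deriv (fun y : ℂ => ((2 : ℝ) : ℂ) * y) x = ((2 : ℝ) : ℂ) := by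
      rw [deriv_const_mul_field, deriv_id'', mul_one]
    rw [h1, h2, h3, Complex.normSq_ofReal]
    ring
  have hint : IntegrableOn (lap V') (ball (0 : ℂ) (1 / 6)) := by
    have h1 : ContinuousOn (lap V') (closedBall (0 : ℂ) (1 / 6)) := by
      intro x hx
      have hx1 : x ∈ ball (0 : ℂ) 1 := closedBall_subset_ball (by norm_num) hx
      exact (BND_lapcont V' x (hV'.contDiffAt (isOpen_ball.mem_nhds hx1))).continuousWithinAt
    exact (h1.integrableOn_compact (isCompact_closedBall _ _)).mono_set ball_subset_closedBall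
  rw [BND_covr 2 (by norm_num) (lap V)]
  have hset : (fun x : ℂ => ((2 : ℝ) : ℂ) * x) ⁻¹' ({x : ℂ | x / 2 ∈ B1 ∪ B2} ∩ ball 0 (1 / 3)) =
      (B1 ∪ B2) ∩ ball 0 (1 / 6) := by
    ext x
    have e1 : ((2 : ℝ) : ℂ) * x / 2 = x := by
      push_cast
      ring
    have e2 : ‖((2 : ℝ) : ℂ) * x‖ = 2 * ‖x‖ := by
      rw [norm_mul, Complex.norm_real, Real.norm_of_nonneg (by norm_num)]
    constructor
    · rintro ⟨h1, h2⟩
      refine ⟨?_, ?_⟩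
      · have h3 : ((2 : ℝ) : ℂ) * x / 2 ∈ B1 ∪ B2 := h1
        rwa [e1] at h3
      · rw [mem_ball_zero_iff, e2] at h2
        rw [mem_ball_zero_iff]
        linarith
    · rintro ⟨h1, h2⟩
      refine ⟨?_, ?_⟩
      · show ((2 : ℝ) : ℂ) * x / 2 ∈ B1 ∪ B2
        rw [e1]
        exact h1
      · rw [mem_ball_zero_iff] at h2
        rw [mem_ball_zero_iff, e2]
        linarith
  rw [hset]
  have hm : MeasurableSet ((B1 ∪ B2) ∩ ball (0 : ℂ) (1 / 6)) := (hm1.union hm2).inter measurableSet_ball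
  have h1 : ∫ x in (B1 ∪ B2) ∩ ball (0 : ℂ) (1 / 6), (2 : ℝ) ^ 2 * lap V (((2 : ℝ) : ℂ) * x) =
      ∫ x in (B1 ∪ B2) ∩ ball (0 : ℂ) (1 / 6), lap V' x := by
    apply setIntegral_congr_fun hm
    rintro x ⟨-, hx⟩
    have hx1 : x ∈ ball (0 : ℂ) 1 := ball_subset_ball (by norm_num) hx
    show (2 : ℝ) ^ 2 * lap V (((2 : ℝ) : ℂ) * x) = lap V' x
    rw [hlap x hx1]
    norm_num
  rw [h1]
  have hU : (B1 ∪ B2) ∩ ball (0 : ℂ) (1 / 6) = (B1 ∩ ball 0 (1 / 6)) ∪ ((B2 ∩ ball 0 (1 / 6)) \ (B1 ∩ ball 0 (1 / 6))) := by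
    rw [union_sdiff_self, union_inter_distrib_right]
  have hb1 : MeasurableSet (B1 ∩ ball (0 : ℂ) (1 / 6)) := hm1.inter measurableSet_ball
  have hb2 : MeasurableSet (B2 ∩ ball (0 : ℂ) (1 / 6)) := hm2.inter measurableSet_ball
  have hi1 : IntegrableOn (lap V') (B1 ∩ ball (0 : ℂ) (1 / 6)) := hint.mono_set inter_subset_right
  have hi2 : IntegrableOn (lap V') (B2 ∩ ball (0 : ℂ) (1 / 6)) := hint.mono_set inter_subset_right
  rw [hU, setIntegral_union disjoint_sdiff_self_right (hb2.diff hb1) hi1 (hi2.mono_set sdiff_subset)]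
  have h2 : ∫ x in (B2 ∩ ball (0 : ℂ) (1 / 6)) \ (B1 ∩ ball (0 : ℂ) (1 / 6)), lap V' x ≤
      ∫ x in B2 ∩ ball (0 : ℂ) (1 / 6), lap V' x := by
    apply setIntegral_mono_set hi2
    · rw [EventuallyLE, ae_restrict_iff' hb2]
      refine Eventually.of_forall ?_
      rintro x ⟨-, hx⟩
      exact hpos x (ball_subset_ball (by norm_num) hx)
    · exact sdiff_subset.eventuallyLE
  linarith

end Pool.Agent.P2B
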